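import Mathlib

/-!
# Project PQ (MP_a1f43d_co): arithmetic statements with complete proofs (Mathlib only)
-/

set_option autoImplicit false

namespace Pool.Agent.Helper45.PQ

universe v

/-- NUA (arithmetic, `q = 3 ^ h`, `h ≥ 4`).

PROOF. Put `X = q ^ 3`, `A = 44 ^ h + 1`. `2 e₁ + 1 ≤ e₁ (1 + e) + 1 ≤ q`, so `μ ≥ 1`. `e (e + 1) + 1 ≤ q`. `(1 + e) μ = (1 + e)(q - 1) - (1 + e) e₁ ≥ e (q - 1)`.
CASE `h = 4`: `q = 81`, `A = 3748097`, `X = 531441`, `e ≤ 8`, `e₁ ≤ 80 / (1 + e)`: finitely many pairs `(e, e₁)` (`e = 1`: `e₁ ≤ 40`, `e = 2`: `≤ 26`, `3`: `≤ 20`, `4`: `≤ 16`,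
`5`: `≤ 13`, `6`: `≤ 11`, `7`: `≤ 10`, `8`: `≤ 8`), the largest quotient of the two sides is `.9674`; `interval_cases e <;> interval_cases e₁ <;> ...`, or: the claim
`A (μ X + (μ - 1)((1+e) X + 80)) < μ² X²` follows for all `μ ≥ μ₀` from the value at `μ₀` because `A (X + (1+e) X + 80) ≤ μ₀ X²`.
CASE `h ≥ 5` (`q ≥ 243`). `(μ - 1)(q - 1) ≤ μ q` and `q³ = X`, so the left side is at most `A μ (X (2 + e) + q)`. It is enough that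
`A (X (2 + e) + q) < μ X²`; multiply by `(1 + e)`: enough `A (1 + e)(X (2 + e) + q) < e (q - 1) X²`. Since `q ≤ X / 59049` it is enough that
`A (1 + e)(2 + e + 1/59049) < e (q - 1) X`. (i) `e = 1`: `A · 6.0001 < (q - 1) X`. (ii) `e ≥ 2`: `(1 + e)(2 + e + 1/59049) ≤ e (e + 4 + 1/20000)`
(`(1+e)(2+e) = e² + 3 e + 2 ≤ e² + 4 e`), so enough `A (e + 4.0001) < (q - 1) X`; square: `(e + 4.0001)² ≤ 1.2 e² + 6 · 16.001 ≤ 1.2 q + 96.1 ≤ 1.6 q`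
(`(x + y)² ≤ 1.2 x² + 6 y²`, `e² < q`, `q ≥ 243`), so enough `1.6 q A² < (q - 1)² X²` (which also implies (i) as `6.0001² ≤ 1.6 q`). `A ≤ 1.00001 · 44^h`, `q - 1 ≥ 0.995 q`:
enough `1.6 · 1.0001 · 3^h · 1936^h < 0.99 · 9^h · 729^h`, i.e. `1.6164 · 1936^h < 2187^h`: true for `h = 5` (`(2187/1936)^5 > 1.83`) and then for all `h ≥ 5`. -/
def StNUA : Prop := ∀ h q e e₁ μ : ℕ, 4 ≤ h → q = 3 ^ h → 1 ≤ e → e ≤ e₁ →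
  e₁ * (1 + e) + 1 ≤ q → μ + 1 + e₁ = q →
  (44 ^ h + 1) * (μ * q ^ 3 + (μ - 1) * ((1 + e) * q ^ 3 + (q - 1))) < (μ * q ^ 3) ^ 2

/-- NU4 (`h ≥ 4`; uses NUA).

PROOF. Let `R₁ ∈ H` have the largest mass `e₁ = m R₁` (`Finset.exists_max_image`), and let `R₂ ∈ H.erase R₁` (nonempty) have the largest mass `e = m R₂`
there; `e ≤ e₁`. The pair hypothesis for `(R₁, R₂)` is `e₁ (1 + e) + 1 ≤ q`. Put `μ = q - 1 - e₁`. For `S ∈ H.erase R₁`: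
`m S ((1 + m S) q³ + 1 + j) ≤ m S ((1 + e) q³ + (q - 1))`, and `∑_{S ≠ R₁} m S = j - e₁ ≤ μ - 1`. So the sum in the last hypothesis is at most
`(μ - 1) ((1 + e) q³ + (q - 1))`, and NUA contradicts the last hypothesis for `R = R₁`. -/
def StNU4 : Prop := ∀ (α : Type v) [DecidableEq α] (H : Finset α) (m : α → ℕ) (h q j : ℕ), 4 ≤ h →
  q = 3 ^ h → 2 ≤ H.card → (∀ R ∈ H, 1 ≤ m R) → ∑ R ∈ H, m R = j → j + 2 ≤ q →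
  (∀ R ∈ H, ∀ S ∈ H, R ≠ S → m R * (1 + m S) + 1 ≤ q) →
  (∀ R ∈ H, ∀ μ : ℕ, μ + 1 + m R = q → (μ * q ^ 3) ^ 2 ≤
    (44 ^ h + 1) * (μ * q ^ 3 + ∑ S ∈ H.erase R, m S * ((1 + m S) * q ^ 3 + 1 + j))) → False

/-- NU3 (`h = 3`, `q = 27`, `27³ = 19683`, `44³ + 1 = 85185`).

PROOF. `R₁`, `e₁`, `e` as in NU4: `1 ≤ e ≤ e₁`, `e₁ (1 + e) ≤ 26`, so `e ≤ 4`. `μ = 26 - e₁`; as in NU4 the third hypothesis gives
`(μ X)² ≤ 85185 (μ X + (μ - 1)((1 + e) X + 26))`, `X = 19683`. `e = 1`: `e₁ ≤ 13`, `13 ≤ μ ≤ 25`: false for each `μ` (at `μ = 13` the sides are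
`169 X² = 3326427 X` and `85185 (37 X + 312) ≤ 3153300 X`). `e = 2`: `e₁ ≤ 8`, `18 ≤ μ ≤ 24`: false (at `μ = 18`: `324 X² = 6377292 X`, right side at most `5880000 X`).
`e = 3`: `e₁ ≤ 6`, `e = 4`: `e₁ ≤ 5`: use the second hypothesis. `∑_R m R ((1 + m R) X + 1 + j) ≤ e₁ ((1 + e₁) X + 26) + (25 - e₁)((1 + e) X + 26) ≤ 130 X + 650`
(`j ≤ 25`; `e₁ (1 + e₁) + (25 - e₁)(1 + e) ≤ 130` for all these pairs), so it gives `27^8 = 282429536481 ≤ 85185 (531441 + 130 · 19683 + 650) = 263296697985`, false. -/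
def StNU3 : Prop := ∀ (α : Type v) [DecidableEq α] (H : Finset α) (m : α → ℕ) (j : ℕ),
  2 ≤ H.card → (∀ R ∈ H, 1 ≤ m R) → ∑ R ∈ H, m R = j → j + 2 ≤ 27 →
  (∀ R ∈ H, ∀ S ∈ H, R ≠ S → m R * (1 + m S) + 1 ≤ 27) →
  27 ^ 8 ≤ (44 ^ 3 + 1) * (27 ^ 4 + ∑ R ∈ H, m R * ((1 + m R) * 27 ^ 3 + 1 + j)) →
  (∀ R ∈ H, ∀ μ : ℕ, μ + 1 + m R = 27 → (μ * 27 ^ 3) ^ 2 ≤
    (44 ^ 3 + 1) * (μ * 27 ^ 3 + ∑ S ∈ H.erase R, m S * ((1 + m S) * 27 ^ 3 + 1 + j))) → False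

/-- NU2 (`h = 2`, `q = 9`; `9³ = 729`, `3 (44² + 1) = 5811`).

PROOF. `t = H.card ≤ j ≤ 7`. Each `(2 m - 1)/(m + 1) = 2 - 3/(m + 1) < 2`. If `2 (9 - j) + t ≥ 9` the left side of the last hypothesis is at least `6561`, the
right side at most `5811 + 8 · 14`: contradiction. So `2 (9 - j) + t ≤ 8`, `t ≥ 2`: either `j = 6`, `t = 2`, or `j = 7`, `t ∈ {2, 3, 4}`. If `t = 2`, the masses are
`a, b` with `a + b = j`, `a (1 + b) ≤ 8`, `b (1 + a) ≤ 8`: impossible for `j = 6, 7` (`a b + max(a, b) ≤ 8`, but `a b ≥ j - 1`, ...: finitely many cases). If `t = 3`, `j = 7`: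
masses `a, b, c` with sum 7 and `x (1 + y) ≤ 8` for all ordered pairs: impossible (finitely many cases; up to order `(5,1,1), (4,2,1), (3,3,1), (3,2,2)`, with
`5·2, 4·3, 3·4, 3·3 > 8`). If `t = 4`, `j = 7`: `∑ (2 m - 1)/(m + 1) = 8 - 3 ∑ 1/(m + 1)`, `∑ (m + 1) = 11`, so `∑ 1/(m + 1) ≥ 16/11` (Cauchy-Schwarz) and the right side is at most
`5811 + 8 (8 - 48/11) < 5841`, but the left side is `8 · 729 + 16 = 5848`. (Use `Finset.card_eq_two`, `Finset.card_eq_three`.) -/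
def StNU2 : Prop := ∀ (α : Type v) (H : Finset α) (m : α → ℕ) (j : ℕ),
  2 ≤ H.card → (∀ R ∈ H, 1 ≤ m R) → ∑ R ∈ H, m R = j → j + 2 ≤ 9 →
  (∀ R ∈ H, ∀ S ∈ H, R ≠ S → m R * (1 + m S) + 1 ≤ 9) →
  (2 * ((9 : ℚ) - j) + H.card) * (9 : ℚ) ^ 3 + 2 * (1 + j) ≤
    3 * ((44 : ℚ) ^ 2 + 1) + (1 + j) * ∑ R ∈ H, (2 * (m R : ℚ) - 1) / ((m R : ℚ) + 1) → False

end Pool.Agent.Helper45.PQ
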