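import Pool.Agent.Helper45.PQ.StA

/-!
# Project PQ (MP_a1f43d_co): statements with complete proofs, the upper bound
(ovoids of `Q(6, 3^h)`)
-/

set_option autoImplicit false

open Module Classical
open scoped LinearAlgebra.Projectivization

namespace Pool.Agent.Helper45.PQ

open Pool.Agent.Helper53.PB (tt line HasParams Form Setup Polar Nb Kind)

universe u v

/-- PBS (standard coordinates of a parabolic form).  Adapt `PB.hyp_basis` (file `Helper53/PB/HypStd.lean`).

PROOF. Induction on `r`. The step is word for word `PB.hyp_basis` (split off a hyperbolic pair `v, w` and use `resForm`, `resForm_params` with `d = 2 r + 1`; the vector `g` and the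
constant `c` come from the induction hypothesis, `Form.q` of an element of the subspace by `restrict_q`). `r = 0`: `finrank V = 1`; take `g ≠ 0`, `c = φ.q g`;
`φ.q (z • g) = z * z * c`. `c ≠ 0`: if `φ.q g = 0`, then `φ.q = 0` on `V = span {g}`, `g` is singular and perpendicular to everything, so `g = 0` by non-degeneracy
(or: `span {g}` would be a generator of dimension 1, but generators have dimension `0`). -/
def StPBS : Prop := ∀ (F : Type u) [Field F] (r : ℕ) (V : Type v) [AddCommGroup V] [Module F V]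
  [FiniteDimensional F V] (φ : Form F V), φ.kind = Kind.orthogonal → HasParams φ (2 * r + 1) r →
  ∃ (e f : Fin r → V) (g : V) (c : F), c ≠ 0 ∧ ∀ (x y : Fin r → F) (z : F),
    φ.q (∑ i, x i • e i + ∑ i, y i • f i + z • g) = ∑ i, x i * y i + c * (z * z)

/-- OVP (the ovoids of `Q(6, 3^h)`; uses PBS).  Compare `PB.exists_ovoid` (file `Helper53/PB/Ovoid.lean`).

PROOF. `F` has characteristic 3. Let `ε ∈ F` be a non-square (`FiniteField.exists_nonsquare`), `e, f, g, c` from PBS with `r = 3`, `λ = ε / c`. For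
`a, b, z ∈ F` put `n = a² - ε b²`, `Y = n² - ε z²`, `v₁ = a n + ε b z`, `v₂ = -(b n + a z)` and
`p(a,b,z) = e₀ + a e₁ + b e₂ + λ⁻¹ (Y f₀ + 2 v₁ f₁ + 2 ε v₂ f₂) + z g`, and `p_∞ = f₀`. Since `λ c = ε`: `λ φ.q(x₀ e₀ + x₁ e₁ + x₂ e₂ + λ⁻¹ (Y f₀ + 2 v₁ f₁ + 2 ε v₂ f₂) + z g)`
`= x₀ Y + 2 x₁ v₁ + 2 ε x₂ v₂ + ε z²`. (i) `λ φ.q(p(a,b,z)) = n² - ε z² + 2 a (a n + ε b z) - 2 ε b (b n + a z) + ε z² = n² + 2 n (a² - ε b²) = 3 n² = 0`. `φ.q(p_∞) = 0`.
(ii) For `p = p(a,b,z)`, `p' = p(a',b',z')` (with `n'` for `(a',b')`), `s = a a' - ε b b'`, `t = a b' - a' b`: the polar form satisfies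
`λ φ.f p p' = Y + Y' + 2 (a v₁' + a' v₁) + 2 ε (b v₂' + b' v₂) + 2 ε z z' = (n + n' + s)² - ε (z' - z - t)²` in characteristic three. Proof: the middle expression is
`n² + n'² - ε (z - z')² + 2 (n + n') s + 2 ε (z' - z) t`, and `s² - ε t² = n n'`, `(n + n')² + n n' = n² + n'² + 3 n n'`.
(`linear_combination (..) * h3` with `h3 : (3 : F) = 0`.) (iii) If `φ.f p p' = 0` then `(n + n' + s)² = ε (z' - z - t)²`, and as `ε` is not a square
`n + n' + s = 0` and `z' = z + t`. In characteristic three `n + n' + s = n + n' - 2 s = (a - a')² - ε (b - b')²`, so `a = a'`, `b = b'` (`ε` not a square), then `t = 0`, `z' = z`.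
`λ φ.f p_∞ p(a,b,z) = λ ≠ 0`. So the `q³ + 1` points `[p]` (indexed by `Option (F × F × F)`) are singular, pairwise not perpendicular, hence
different (`φ.f p p = 0` for singular `p`). -/
def StOVP : Prop := ∀ (F : Type u) [Field F] [Finite F] (V : Type v) [AddCommGroup V] [Module F V]
  [FiniteDimensional F V] (φ : Form F V) (h : ℕ), Nat.card F = 3 ^ h → 1 ≤ h →
  φ.kind = Kind.orthogonal → HasParams φ 7 3 → ∃ T : Finset (ℙ F V), (∀ y ∈ T, φ.Sing y.rep) ∧
    (∀ x ∈ T, ∀ y ∈ T, x ≠ y → φ.f x.rep y.rep ≠ 0) ∧ T.card = Nat.card F ^ 3 + 1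

/-- OBL (a set of `s q^k + 1` pairwise non-perpendicular singular points meets all generators).
Copy `PB.ovoid_block` (file `Helper53/PB/HypStd.lean`) with `Fin s` instead of `Unit`.

PROOF. Same: every generator has at most one point of `T`; if a generator `U` has one point, `PB.sumA` gives
`∑_p tt T (N.nb p) = T.card - 1 + s * geo q k = s q^k + s geo q k = s * geo q (k+1)`, the number of the neighbours, so each neighbour has exactly one point; walk from a generator
with one point to any generator. -/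
def StOBL : Prop := ∀ (F : Type u) [Field F] [Finite F] (V : Type v) [AddCommGroup V] [Module F V]
  [FiniteDimensional F V] (P : Polar F V) (k s : ℕ), (∀ U, P.Gen U → finrank F U = k + 1) →
  (∀ U, P.Gen U → Nonempty (Nb P U (Fin s))) → ∀ T : Finset (ℙ F V), (∀ y ∈ T, P.sing y.rep) →
  (∀ x ∈ T, ∀ y ∈ T, x ≠ y → P.f x.rep y.rep ≠ 0) → T.card = s * Nat.card F ^ k + 1 → P.Block T

end Pool.Agent.Helper45.PQ
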