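import Pool.Agent.Helper45.PQ.StK
import Pool.Agent.Helper45.PQ.StN
import Pool.Agent.Helper45.PQ.StU

/-!
# Project PQ (MP_a1f43d_co): assembly
-/

set_option autoImplicit false

open Module Classical
open scoped LinearAlgebra.Projectivization

namespace Pool.Agent.Helper45.PQ

open Pool.Agent.Helper53.PB

universe u v

section

variable {F : Type u} {V : Type v} [Field F] [Finite F] [AddCommGroup V] [Module F V]
  [FiniteDimensional F V] {Q : QuadraticForm F V} {T H : Finset (ℙ F V)} {m : ℙ F V → ℕ} {h j : ℕ}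

private theorem pow_lt (h : ℕ) (h1 : 1 ≤ h) : 1936 ^ h < 2187 ^ h :=
  Nat.pow_lt_pow_left (by norm_num) (by omega)

/-- arithmetic for one heavy point -/
private theorem one_false {q h j : ℕ} (hq : q = 3 ^ h) (h1 : 1 ≤ h) (hj : j + 2 ≤ q)
    (ha : (q - j) * q ^ 3 ≤ 44 ^ h) (hb : (q - 1 - j) * q ^ 3 ≤ (q - 1 - j) ^ 7) : False := by
  obtain ⟨μ, hμ⟩ : ∃ μ, μ = q - 1 - j := ⟨_, rfl⟩
  have hμ1 : 1 ≤ μ := by omega
  have hqj : q - j = μ + 1 := by omega
  rw [hqj] at ha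
  rw [← hμ] at hb
  have hc : q ^ 3 ≤ (μ ^ 2) ^ 3 := by
    have e : μ ^ 7 = μ * (μ ^ 2) ^ 3 := by ring
    rw [e] at hb
    exact Nat.le_of_mul_le_mul_left hb hμ1
  have hqμ : q ≤ μ ^ 2 := (Nat.pow_le_pow_iff_left (by norm_num)).1 hc
  have h3 : q ^ 3 = 27 ^ h := by
    rw [hq, ← pow_mul, mul_comm, pow_mul]
    norm_num
  have h4 : μ * 27 ^ h ≤ 44 ^ h := by
    rw [← h3]
    exact (Nat.mul_le_mul_right _ (Nat.le_succ μ)).trans ha
  have h5 : μ ^ 2 * 729 ^ h ≤ 1936 ^ h := by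
    have e1 : (729 : ℕ) ^ h = (27 ^ h) ^ 2 := by
      rw [← pow_mul, mul_comm, pow_mul]
      norm_num
    have e2 : (1936 : ℕ) ^ h = (44 ^ h) ^ 2 := by
      rw [← pow_mul, mul_comm h 2, pow_mul]
      norm_num
    rw [e1, e2, ← mul_pow]
    exact Nat.pow_le_pow_left h4 2
  have h6 : (2187 : ℕ) ^ h = q * 729 ^ h := by
    rw [hq, ← mul_pow]
    norm_num
  have h7 : q * 729 ^ h ≤ μ ^ 2 * 729 ^ h := Nat.mul_le_mul_right _ hqμ
  have h8 := pow_lt h h1
  omega

theorem cfg_false (hTBD : StTBD.{u, v}) (hBIN : StBIN.{u, v}) (hHSM : StHSM.{u, v})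
    (hZER : StZER.{u, v}) (hCSA : StCSA.{u, v}) (hCSB : StCSB.{u, v}) (hONA : StONA.{u, v})
    (hONB : StONB.{u, v}) (hNU2 : StNU2.{v}) (hNU3 : StNU3.{v}) (hNU4 : StNU4.{v})
    (c : Cfg Q T H m h j) : False := by
  have hfV : Finite V := Module.finite_of_finite F
  have hne := hZER F V Q T H m h j c
  have hsm := hHSM F V Q T H m h j c
  have hpair : ∀ R ∈ H, ∀ S ∈ H, R ≠ S → m R * (1 + m S) + 1 ≤ Nat.card F := by
    intro R hR S hS hRS
    by_cases h0 : QuadraticMap.polar Q R.rep S.rep = 0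
    · exact hCSA F V Q T H m h j c R hR S hS hRS h0
    · exact hCSB F V Q T H m h j c hsm S hS R hR (by rwa [QuadraticMap.polar_comm])
  have hq := c.hq
  have hj := c.hj
  have h1 := c.h1
  have hcard : H.card ≤ j := by
    rw [← c.ms, Finset.card_eq_sum_ones]
    exact Finset.sum_le_sum c.mp
  rcases Nat.lt_or_ge H.card 2 with hlt | hge
  · have hH1 : H.card = 1 := by
      have := hne.card_pos
      omega
    obtain ⟨R, hR⟩ := Finset.card_eq_one.1 hH1
    exact one_false hq h1 hj (hONA F V Q T H m h j c R hR) (hONB F V Q T H m h j c R hR)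
  · obtain ⟨q, hqq⟩ : ∃ q, q = Nat.card F := ⟨_, rfl⟩
    obtain ⟨hb1, hb2⟩ := hBIN F V Q T H m h j c
    have htb := hTBD F V Q T H m h j c
    rw [← hqq] at hq hj hpair hb1 hb2 htb
    have hh : h = 1 ∨ h = 2 ∨ h = 3 ∨ 4 ≤ h := by omega
    rcases hh with rfl | rfl | rfl | h4
    · norm_num at hq
      omega
    · norm_num at hq
      subst hq
      exact hNU2 (ℙ F V) H m j hge c.mp c.ms hj hpair (by exact_mod_cast htb)
    · norm_num at hq
      subst hq
      exact hNU3 (ℙ F V) H m j hge c.mp c.ms hj hpair hb1 hb2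
    · exact hNU4 (ℙ F V) H m h q j h4 hq hge c.mp c.ms hj hpair hb2

end

/-- the lower bound in dimension nine -/
theorem par_nine_lower (hPST : StPST.{u, v}) (hEXT : StEXT.{u, v})
    (hcfg : ∀ (F : Type u) [Field F] [Finite F] (V : Type v) [AddCommGroup V] [Module F V]
      [FiniteDimensional F V] (Q : QuadraticForm F V) (T H : Finset (ℙ F V)) (m : ℙ F V → ℕ)
      (h j : ℕ), Cfg Q T H m h j → False)
    {F : Type u} [Field F] [Finite F] {h : ℕ} (hF : Nat.card F = 3 ^ h) (h1 : 1 ≤ h)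
    (V : Type v) [AddCommGroup V] [Module F V] [FiniteDimensional F V] (φ : Form F V)
    (hφ : φ.kind = .orthogonal) (hp : HasParams φ 9 4) (T : Finset (ℙ F V))
    (hT : φ.toPolar.Block T) : Nat.card F ^ 4 + Nat.card F ≤ T.card := by
  have : Finite V := Module.finite_of_finite F
  by_contra hlt
  push Not at hlt
  obtain ⟨S, hS, hmin⟩ := exists_min (P := φ.toPolar) ⟨T, hT⟩
  have hST := hmin T hT
  obtain ⟨j, hset⟩ := hPST F V φ 2 hφ hp S hS hmin
  have hcard := hset.card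
  rw [Fintype.card_fin] at hcard
  have e : Nat.card F * Nat.card F ^ (2 + 1) = Nat.card F ^ 4 := by ring
  rw [e] at hcard
  have hj : j + 2 ≤ Nat.card F := by omega
  cases φ with
  | symplectic B alt nd => cases hφ
  | hermitian σ i n B hm nd => cases hφ
  | orthogonal Q nd =>
    obtain ⟨H, m, c⟩ := hEXT F V Q nd h j S hF h1 hp hset hj
    exact hcfg F V Q S H m h j c

/-- the upper bound in dimension seven -/
theorem par_seven_upper (hPNB : StPNB.{u, v}) (hOVP : StOVP.{u, v}) (hOBL : StOBL.{u, v})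
    {F : Type u} [Field F] [Finite F] {h : ℕ} (hF : Nat.card F = 3 ^ h) (h1 : 1 ≤ h)
    (V : Type v) [AddCommGroup V] [Module F V] [FiniteDimensional F V] (φ : Form F V)
    (hφ : φ.kind = .orthogonal) (hp : HasParams φ 7 3) :
    ∃ T : Finset (ℙ F V), φ.toPolar.Block T ∧ T.card ≤ Nat.card F ^ 3 + 1 := by
  obtain ⟨T, hs, hpw, hc⟩ := hOVP F V φ h hF h1 hφ hp
  refine ⟨T, hOBL F V φ.toPolar 2 (Nat.card F) (class_gen hp) ?_ T hs hpw ?_, hc.le⟩
  · exact hPNB F V φ 3 hφ hp.1 (class_gen hp)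
  · rw [hc]
    ring

theorem par_class (hup : ∀ (F : Type u) [Field F] [Finite F] (h : ℕ), Nat.card F = 3 ^ h → 1 ≤ h →
      ∀ (V : Type v) [AddCommGroup V] [Module F V] [FiniteDimensional F V] (φ : Form F V),
      φ.kind = .orthogonal → HasParams φ 7 3 →
      ∃ T : Finset (ℙ F V), φ.toPolar.Block T ∧ T.card ≤ Nat.card F ^ 3 + 1)
    (hlo : ∀ (F : Type u) [Field F] [Finite F] (h : ℕ), Nat.card F = 3 ^ h → 1 ≤ h →
      ∀ (V : Type v) [AddCommGroup V] [Module F V] [FiniteDimensional F V] (φ : Form F V),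
      φ.kind = .orthogonal → HasParams φ 9 4 →
      ∀ T : Finset (ℙ F V), φ.toPolar.Block T → Nat.card F ^ 4 + Nat.card F ≤ T.card)
    {F : Type u} [Field F] [Finite F] {h : ℕ} (hF : Nat.card F = 3 ^ h) (h1 : 1 ≤ h) (n : ℕ) :
    ClassMin.{u, v} F .orthogonal (2 * (n + 4) + 1) (n + 4)
      (Nat.card F ^ (n + 4) + Nat.card F ^ (n + 1)) := by
  induction n with
  | zero =>
    intro V _ _ _ φ hφ hp
    refine ⟨?_, fun T hT => ?_⟩
    · obtain ⟨T, hT, hle⟩ := class_cone (d := 7) (r := 3) (m := Nat.card F ^ 3 + 1)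
        (fun V _ _ _ φ h2 h3 => hup F h hF h1 V φ h2 h3) φ hφ hp
      refine ⟨T, hT, hle.trans (le_of_eq ?_)⟩
      ring
    · have := hlo F h hF h1 V φ hφ hp T hT
      simpa using this
  | succ n ih =>
    have h3 := ClassMin.step (by omega) (by
      rw [pow_succ, pow_succ]
      exact (Nat.dvd_mul_left _ _).add (Nat.dvd_mul_left _ _)) ih
    have h4 : Nat.card F * (Nat.card F ^ (n + 4) + Nat.card F ^ (n + 1)) =
        Nat.card F ^ (n + 1 + 4) + Nat.card F ^ (n + 1 + 1) := by ring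
    rw [h4] at h3
    exact h3

end Pool.Agent.Helper45.PQ
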