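import Pool.Agent.Helper53.PB.HypMain

/-!
# Project PQ (MP_a1f43d_co): parabolic quadrics over the fields of characteristic three, definitions

`q = Nat.card F`.  Points are elements of `ℙ F V`, a point `P` is represented by the vector `P.rep`
(`P.rep_nonzero`).  `QuadraticMap.polar Q x y = Q (x + y) - Q x - Q y` is bilinear and symmetric.
-/

set_option autoImplicit false

open Module Classical
open scoped LinearAlgebra.Projectivization

namespace Pool.Agent.Helper45.PQ

open Pool.Agent.Helper53.PB (tt line)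

universe u v

variable {F : Type u} {V : Type v} [Field F] [AddCommGroup V] [Module F V]

/-- the hyperplane of all vectors perpendicular to `a` -/
def prp (Q : QuadraticForm F V) (a : V) : Submodule F V := LinearMap.ker (QuadraticMap.polarBilin Q a)

theorem mem_prp {Q : QuadraticForm F V} {a x : V} : x ∈ prp Q a ↔ QuadraticMap.polar Q a x = 0 :=
  Iff.rfl

/-- a non-degenerate quadratic form (non-degenerate polar form) in dimension `d` all whose maximal
totally singular subspaces have dimension `r` -/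
structure Qd (Q : QuadraticForm F V) (d r : ℕ) : Prop where
  hd : finrank F V = d
  nd : ∀ x, (∀ y, QuadraticMap.polar Q x y = 0) → x = 0
  ext : ∀ U : Submodule F V, (∀ x ∈ U, Q x = 0) →
    ∃ G : Submodule F V, U ≤ G ∧ (∀ x ∈ G, Q x = 0) ∧ finrank F G = r
  mx : ∀ U : Submodule F V, (∀ x ∈ U, Q x = 0) → finrank F U ≤ r

/-- the singular points in the subspace `W` -/
noncomputable def sp [Finite V] (Q : QuadraticForm F V) (W : Submodule F V) : Finset (ℙ F V) :=
  Finset.univ.filter (fun y => y.rep ∈ W ∧ Q y.rep = 0)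

theorem mem_sp [Finite V] {Q : QuadraticForm F V} {W : Submodule F V} {y : ℙ F V} :
    y ∈ sp Q W ↔ y.rep ∈ W ∧ Q y.rep = 0 := by
  unfold sp
  rw [Finset.mem_filter, and_iff_right (Finset.mem_univ _)]

/-- the totally singular subspaces of dimension two through `z` in `W` -/
def lins (Q : QuadraticForm F V) (W : Submodule F V) (z : V) : Set (Submodule F V) :=
  {l | l ≤ W ∧ z ∈ l ∧ finrank F l = 2 ∧ ∀ x ∈ l, Q x = 0}

/-- `O` is a set of singular points meeting every totally singular subspace of dimension two in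
exactly one point -/
def Ovo (Q : QuadraticForm F V) (O : Finset (ℙ F V)) : Prop :=
  (∀ y ∈ O, Q y.rep = 0) ∧
    ∀ U : Submodule F V, (∀ x ∈ U, Q x = 0) → finrank F U = 2 → ∃! y, y ∈ O ∧ y.rep ∈ U

/-- the quadratic character -/
noncomputable def eta (a : F) : ℤ := if a = 0 then 0 else if IsSquare a then 1 else -1

/-- number of pairs `(y, a)`, `y ∈ O`, `a ∈ X y`, with `a b + f(y, z) = 0` -/
noncomputable def cnt (Q : QuadraticForm F V) (O : Finset (ℙ F V)) (X : ℙ F V → Finset F) (z : V)
    (b : F) : ℕ :=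
  ∑ y ∈ O, ((X y).filter (fun a => a * b + QuadraticMap.polar Q y.rep z = 0)).card

/-- number of points of `T` perpendicular to the vector `x` -/
noncomputable def nu (Q : QuadraticForm F V) (T : Finset (ℙ F V)) (x : V) : ℕ :=
  (T.filter (fun P => QuadraticMap.polar Q x P.rep = 0)).card

/-- total mass of the heavy points in `K` -/
noncomputable def mass (H : Finset (ℙ F V)) (m : ℙ F V → ℕ) (K : Submodule F V) : ℕ :=
  ∑ R ∈ H.filter (fun R => R.rep ∈ K), m R

/-- `T` is a set of `q ^ 4 + 1 + j` points, `j ≤ q - 2`, of the parabolic quadric in dimension `9`, and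
`H` is the set of heavy points, `m R` the mass of `R ∈ H`, with total mass `j`. -/
structure Cfg (Q : QuadraticForm F V) (T H : Finset (ℙ F V)) (m : ℙ F V → ℕ) (h j : ℕ) :
    Prop where
  hq : Nat.card F = 3 ^ h
  h1 : 1 ≤ h
  qd : Qd Q 9 4
  sT : ∀ P ∈ T, Q P.rep = 0
  sH : ∀ R ∈ H, Q R.rep = 0
  cT : T.card = Nat.card F ^ 4 + 1 + j
  hj : j + 2 ≤ Nat.card F
  dis : ∀ R ∈ H, R ∉ T
  mp : ∀ R ∈ H, 1 ≤ m R
  ms : ∑ R ∈ H, m R = j
  /-- totally singular lines through a point of `T` -/
  ln : ∀ P ∈ T, ∀ X : ℙ F V, X ≠ P → Q X.rep = 0 → QuadraticMap.polar Q P.rep X.rep = 0 →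
    tt T (line P X) = 1 + mass H m (line P X)
  /-- generators -/
  gn : ∀ G : Submodule F V, (∀ x ∈ G, Q x = 0) → finrank F G = 4 → tt T G = 1 + mass H m G
  /-- hyperplanes of heavy points -/
  lo : ∀ R ∈ H, (1 + m R) * (Nat.card F ^ 3 + 1) ≤ nu Q T R.rep
  up : ∀ R ∈ H, nu Q T R.rep ≤ (1 + m R) * Nat.card F ^ 3 + 1 + j
  /-- two perpendicular heavy points -/
  lp : ∀ R ∈ H, ∀ S ∈ H, R ≠ S → QuadraticMap.polar Q R.rep S.rep = 0 →
    (T.filter (fun P => QuadraticMap.polar Q R.rep P.rep = 0 ∧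
      QuadraticMap.polar Q S.rep P.rep = 0)).card + 1 ≤ Nat.card F ^ 3

/-! ### Some general lemmas -/

theorem polar_self_two (Q : QuadraticForm F V) (x : V) : QuadraticMap.polar Q x x = 2 * Q x := by
  have h := QuadraticMap.polar_self Q x
  rw [h, two_smul, two_mul]

/-- `Q` vanishes on `U` iff `U` is totally singular -/
theorem polar_zero {Q : QuadraticForm F V} {U : Submodule F V} (h : ∀ x ∈ U, Q x = 0) {x y : V}
    (hx : x ∈ U) (hy : y ∈ U) : QuadraticMap.polar Q x y = 0 := by
  unfold QuadraticMap.polar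
  rw [h _ (U.add_mem hx hy), h x hx, h y hy, sub_zero, sub_zero]

/-- adding a singular vector perpendicular to `U` -/
theorem sing_sup {Q : QuadraticForm F V} {U : Submodule F V} (h : ∀ x ∈ U, Q x = 0) {a : V}
    (ha : Q a = 0) (hU : ∀ x ∈ U, QuadraticMap.polar Q a x = 0) :
    ∀ x ∈ U ⊔ Submodule.span F {a}, Q x = 0 := by
  intro x hx
  obtain ⟨y, hy, z, hz, rfl⟩ := Submodule.mem_sup.1 hx
  obtain ⟨c, rfl⟩ := Submodule.mem_span_singleton.1 hz
  rw [QuadraticMap.map_add Q, h y hy, QuadraticMap.map_smul, ha, QuadraticMap.polar_smul_right,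
    QuadraticMap.polar_comm, hU y hy]
  simp

/-- vectors and points -/
theorem card_vec [Finite F] [Finite V] (p : V → Prop) (hp : ∀ (c : F) (x : V), c ≠ 0 → (p (c • x) ↔ p x)) :
    {x : V | x ≠ 0 ∧ p x}.ncard =
      (Nat.card F - 1) * (Finset.univ.filter (fun P : ℙ F V => p P.rep)).card := by
  have : Fintype F := Fintype.ofFinite F
  obtain ⟨g, hg⟩ : ∃ g : F × ℙ F V → V, g = fun x => x.1 • x.2.rep := ⟨_, rfl⟩
  obtain ⟨A, hA⟩ : ∃ A : Finset (F × ℙ F V), A = (Finset.univ.erase 0) ×ˢ
    (Finset.univ.filter (fun P : ℙ F V => p P.rep)) := ⟨_, rfl⟩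
  have h1 : {x : V | x ≠ 0 ∧ p x} = g '' (A : Set (F × ℙ F V)) := by
    ext x
    constructor
    · rintro ⟨hx, hpx⟩
      obtain ⟨a, ha⟩ := Projectivization.exists_smul_eq_mk_rep F x hx
      refine ⟨((a⁻¹ : Fˣ), Projectivization.mk F x hx), ?_, ?_⟩
      · rw [hA]
        simp only [Finset.coe_product, Set.mem_prod, Finset.mem_coe, Finset.mem_erase,
          Finset.mem_univ, and_true, Finset.mem_filter, true_and]
        refine ⟨Units.ne_zero _, ?_⟩
        rw [← ha, Units.smul_def]
        exact (hp _ _ a.ne_zero).2 hpx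
      · rw [hg]
        simp only
        rw [← ha, ← Units.smul_def, inv_smul_smul]
    · rintro ⟨⟨c, P⟩, hcP, rfl⟩
      rw [hA] at hcP
      simp only [Finset.coe_product, Set.mem_prod, Finset.mem_coe, Finset.mem_erase,
        Finset.mem_univ, and_true, Finset.mem_filter, true_and] at hcP
      rw [hg]
      exact ⟨smul_ne_zero hcP.1 P.rep_nonzero, (hp _ _ hcP.1).2 hcP.2⟩
  have h2 : Set.InjOn g (A : Set (F × ℙ F V)) := by
    rintro ⟨c, P⟩ hc ⟨d, R⟩ hd heq
    rw [hA] at hc hd
    simp only [Finset.coe_product, Set.mem_prod, Finset.mem_coe, Finset.mem_erase,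
      Finset.mem_univ, and_true, Finset.mem_filter, true_and] at hc hd
    rw [hg] at heq
    simp only at heq
    have hPR : P = R := by
      apply Pool.Agent.Helper53.PB.eq_of_rep_mem_span
      rw [Submodule.mem_span_singleton]
      refine ⟨c⁻¹ * d, ?_⟩
      rw [mul_smul, ← heq, smul_smul, inv_mul_cancel₀ hc.1, one_smul]
    subst hPR
    have : c = d := by
      have h3 : (c - d) • P.rep = 0 := by rw [sub_smul, heq, sub_self]
      rcases smul_eq_zero.1 h3 with h | h
      · exact sub_eq_zero.1 h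
      · exact absurd h P.rep_nonzero
    rw [this]
  rw [h1, h2.ncard_image, Set.ncard_coe_finset, hA, Finset.card_product,
    Finset.card_erase_of_mem (Finset.mem_univ _), Finset.card_univ, Nat.card_eq_fintype_card]

end Pool.Agent.Helper45.PQ
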