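import Pool.Agent.Helper45.PQ.StK

set_option autoImplicit false

open Module Classical
open scoped LinearAlgebra.Projectivization

namespace Pool.Agent.Helper45.PQ

universe u v

theorem hQFB : StQFB.{v} := by
  intro α O S c φ hc hsym hsq
  have hc0 : (0 : ℤ) < c := by exact_mod_cast hc
  -- the key identity
  have key : ∀ s : ℤ, s ^ 2 = 1 → ∑ z ∈ O, (∑ x ∈ O, φ x * S x z - s * c * φ z) ^ 2 =
      2 * c * (c * ∑ x ∈ O, φ x ^ 2 - s * ∑ x ∈ O, ∑ y ∈ O, φ x * S x y * φ y) := by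
    intro s hs
    have e1 : ∀ z ∈ O, (∑ x ∈ O, φ x * S x z - s * c * φ z) ^ 2 =
        ∑ x ∈ O, ∑ y ∈ O, φ x * φ y * (S x z * S z y) -
          2 * s * c * ∑ x ∈ O, φ x * S x z * φ z + (c : ℤ) ^ 2 * φ z ^ 2 := by
      intro z hz
      have e2 : (∑ x ∈ O, φ x * S x z) ^ 2 = ∑ x ∈ O, ∑ y ∈ O, φ x * φ y * (S x z * S z y) := by
        rw [sq, Finset.sum_mul_sum]
        refine Finset.sum_congr rfl fun x hx => Finset.sum_congr rfl fun y hy => ?_
        rw [hsym z hz y hy]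
        ring
      have e3 : ∑ x ∈ O, φ x * S x z * φ z = (∑ x ∈ O, φ x * S x z) * φ z := by
        rw [Finset.sum_mul]
      rw [← e2, e3]
      linear_combination ((c : ℤ) ^ 2 * φ z ^ 2) * hs
    rw [Finset.sum_congr rfl e1, Finset.sum_add_distrib, Finset.sum_sub_distrib]
    have e4 : ∑ z ∈ O, ∑ x ∈ O, ∑ y ∈ O, φ x * φ y * (S x z * S z y) =
        (c : ℤ) ^ 2 * ∑ x ∈ O, φ x ^ 2 := by
      rw [Finset.sum_comm, Finset.mul_sum]
      refine Finset.sum_congr rfl fun x hx => ?_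
      rw [Finset.sum_comm]
      have e5 : ∀ y ∈ O, ∑ z ∈ O, φ x * φ y * (S x z * S z y) =
          if x = y then φ x * φ y * (c : ℤ) ^ 2 else 0 := by
        intro y hy
        rw [← Finset.mul_sum, hsq x hx y hy]
        split_ifs with h
        · rfl
        · ring
      rw [Finset.sum_congr rfl e5, Finset.sum_ite_eq, if_pos hx]
      ring
    have e6 : ∑ z ∈ O, 2 * s * c * ∑ x ∈ O, φ x * S x z * φ z =
        2 * s * c * ∑ x ∈ O, ∑ y ∈ O, φ x * S x y * φ y := by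
      rw [← Finset.mul_sum, Finset.sum_comm]
    rw [e4, e6, ← Finset.mul_sum]
    ring
  have pos : ∀ s : ℤ, s ^ 2 = 1 →
      s * ∑ x ∈ O, ∑ y ∈ O, φ x * S x y * φ y ≤ c * ∑ x ∈ O, φ x ^ 2 := by
    intro s hs
    have h1 := Finset.sum_nonneg (s := O)
      (f := fun z => (∑ x ∈ O, φ x * S x z - s * c * φ z) ^ 2) (fun z _ => sq_nonneg _)
    rw [key s hs] at h1
    have h2 : 0 ≤ (c : ℤ) * ∑ x ∈ O, φ x ^ 2 - s * ∑ x ∈ O, ∑ y ∈ O, φ x * S x y * φ y :=
      nonneg_of_mul_nonneg_right h1 (by positivity)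
    linarith
  rw [abs_le]
  have h1 := pos 1 (by norm_num)
  have h2 := pos (-1) (by norm_num)
  constructor
  · linarith
  · linarith

end Pool.Agent.Helper45.PQ
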