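import Pool.Agent.Helper45.PQ.StK

set_option autoImplicit false

open Module Classical
open scoped LinearAlgebra.Projectivization

namespace Pool.Agent.Helper45.PQ

universe u v

theorem hSSQ (h1 : StGQA.{u, v}) (h2 : StNWD.{u, v}) (h3 : StETA.{u}) (h4 : StKAP.{u, v}) :
    StSSQ.{u, v} := by
  intro F _ _ hF V _ _ _ _ Q hq O hO y₁ hy₁ y₂ hy₂
  obtain ⟨emul, eval, -, ecard, -⟩ := h3 F hF
  obtain ⟨-, -, -, hG⟩ := h1 F V Q hq
  obtain ⟨hOc, -, hOp⟩ := hG O hO
  obtain ⟨κ, hκ, hK⟩ := h4 F hF V Q hq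
  have hself : ∀ y ∈ O, QuadraticMap.polar Q y.rep y.rep = 0 := by
    intro y hy
    rw [polar_self_two, hO.1 y hy, mul_zero]
  have e0 : eta (0 : F) = 0 := by
    unfold eta
    rw [if_pos rfl]
  have esq : ∀ a : F, a ≠ 0 → eta a * eta a = 1 := by
    intro a ha
    rcases eval a ha with h | h <;> rw [h] <;> norm_num
  by_cases hy : y₁ = y₂
  · subst hy
    rw [if_pos rfl, ← Finset.add_sum_erase O _ hy₁, hself y₁ hy₁, e0, zero_mul, zero_add]
    have : ∀ y ∈ O.erase y₁, eta (QuadraticMap.polar Q y₁.rep y.rep) *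
        eta (QuadraticMap.polar Q y.rep y₁.rep) = 1 := by
      intro y hy
      rw [Finset.mem_erase] at hy
      rw [QuadraticMap.polar_comm Q y.rep y₁.rep]
      exact esq _ (hOp y₁ hy₁ y hy.2 (Ne.symm hy.1))
    rw [Finset.sum_congr rfl this, Finset.sum_const, Finset.card_erase_of_mem hy₁, hOc]
    simp
  · rw [if_neg hy]
    obtain ⟨φ, hφ⟩ : ∃ φ, φ = QuadraticMap.polar Q y₁.rep y₂.rep := ⟨_, rfl⟩
    have hφ0 : φ ≠ 0 := by
      rw [hφ]
      exact hOp y₁ hy₁ y₂ hy₂ hy
    obtain ⟨O', hO'⟩ : ∃ O' : Finset (ℙ F V), O' = (O.erase y₁).erase y₂ := ⟨_, rfl⟩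
    have hmem : ∀ y, y ∈ O' ↔ y ∈ O ∧ y ≠ y₁ ∧ y ≠ y₂ := by
      intro y
      rw [hO', Finset.mem_erase, Finset.mem_erase]
      tauto
    have hO'c : O'.card = Nat.card F ^ 2 - 1 := by
      rw [hO', Finset.card_erase_of_mem, Finset.card_erase_of_mem hy₁, hOc]
      · omega
      · rw [Finset.mem_erase]
        exact ⟨Ne.symm hy, hy₂⟩
    obtain ⟨c, hc⟩ : ∃ c : ℙ F V → F, c = fun y =>
      QuadraticMap.polar Q y₁.rep y.rep / QuadraticMap.polar Q y₂.rep y.rep := ⟨_, rfl⟩
    have hf1 : ∀ y ∈ O', QuadraticMap.polar Q y₁.rep y.rep ≠ 0 := by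
      intro y hy
      rw [hmem] at hy
      exact hOp y₁ hy₁ y hy.1 (Ne.symm hy.2.1)
    have hf2 : ∀ y ∈ O', QuadraticMap.polar Q y₂.rep y.rep ≠ 0 := by
      intro y hy
      rw [hmem] at hy
      exact hOp y₂ hy₂ y hy.1 (Ne.symm hy.2.2)
    have hc0 : ∀ y ∈ O', c y ≠ 0 := by
      intro y hy
      rw [hc]
      exact div_ne_zero (hf1 y hy) (hf2 y hy)
    -- the sum over O is the sum over O'
    have hs1 : ∑ y ∈ O, eta (QuadraticMap.polar Q y₁.rep y.rep) *
        eta (QuadraticMap.polar Q y.rep y₂.rep) =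
        ∑ y ∈ O', eta (QuadraticMap.polar Q y₁.rep y.rep) *
        eta (QuadraticMap.polar Q y.rep y₂.rep) := by
      rw [hO', ← Finset.add_sum_erase O _ hy₁, hself y₁ hy₁, e0, zero_mul, zero_add,
        ← Finset.add_sum_erase (O.erase y₁) _ (Finset.mem_erase.2 ⟨Ne.symm hy, hy₂⟩),
        hself y₂ hy₂, e0, mul_zero, zero_add]
    have hs2 : ∀ y ∈ O', eta (QuadraticMap.polar Q y₁.rep y.rep) *
        eta (QuadraticMap.polar Q y.rep y₂.rep) = (κ * eta (-φ)) * (κ * eta (-(c y * φ))) := by
      intro y hy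
      have a1 : QuadraticMap.polar Q y₁.rep y.rep = c y * QuadraticMap.polar Q y₂.rep y.rep := by
        rw [hc]
        simp only
        rw [div_mul_cancel₀ _ (hf2 y hy)]
      have a2 : -(c y * φ) = c y * (-φ) := by ring
      have a3 : κ * κ = 1 := by
        rcases hκ with h | h <;> rw [h] <;> norm_num
      rw [QuadraticMap.polar_comm Q y.rep y₂.rep, a1, emul, a2, emul]
      have a4 := esq _ (hf2 y hy)
      have a5 := esq (-φ) (neg_ne_zero.2 hφ0)
      calc eta (c y) * eta (QuadraticMap.polar Q y₂.rep y.rep) *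
            eta (QuadraticMap.polar Q y₂.rep y.rep)
          = eta (c y) * (eta (QuadraticMap.polar Q y₂.rep y.rep) *
            eta (QuadraticMap.polar Q y₂.rep y.rep)) := by ring
        _ = (κ * κ) * (eta (-φ) * eta (-φ)) * eta (c y) := by rw [a3, a4, a5]; ring
        _ = κ * eta (-φ) * (κ * (eta (c y) * eta (-φ))) := by ring
    obtain ⟨A, hA⟩ : ∃ A : Finset (ℙ F V), A = O'.filter (fun y => eta (-(c y * φ)) = κ) :=
      ⟨_, rfl⟩
    have hs3 : ∀ y ∈ O', κ * eta (-(c y * φ)) = (if eta (-(c y * φ)) = κ then 2 else 0) - 1 := by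
      intro y hy
      have b1 : -(c y * φ) ≠ 0 := neg_ne_zero.2 (mul_ne_zero (hc0 y hy) hφ0)
      rcases eval _ b1 with h | h <;> rcases hκ with h' | h' <;> rw [h, h'] <;> norm_num
    -- the count
    obtain ⟨C, hC⟩ : ∃ C : Finset F, C = Finset.univ.filter (fun a : F => eta (-(a * φ)) = κ) :=
      ⟨_, rfl⟩
    have hCc : 2 * C.card = Nat.card F - 1 := by
      have hb : C.card = (Finset.univ.filter (fun a : F => eta a = κ)).card := by
        rw [hC]
        refine Finset.card_bij (fun a _ => -(a * φ)) ?_ ?_ ?_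
        · intro a ha
          rw [Finset.mem_filter] at ha ⊢
          exact ⟨Finset.mem_univ _, ha.2⟩
        · intro a _ b _ hab
          have := neg_injective hab
          exact mul_right_cancel₀ hφ0 this
        · intro b hb
          rw [Finset.mem_filter] at hb
          have hx : -(-b / φ * φ) = b := by
            rw [div_mul_cancel₀ _ hφ0, neg_neg]
          refine ⟨-b / φ, ?_, hx⟩
          rw [Finset.mem_filter]
          refine ⟨Finset.mem_univ _, ?_⟩
          rw [hx]
          exact hb.2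
      rw [hb]
      exact ecard κ hκ
    have hn : ∀ a ∈ C, (O'.filter (fun y => c y = a)).card = Nat.card F + 1 := by
      intro a ha
      rw [hC, Finset.mem_filter] at ha
      have ha0 : a ≠ 0 := by
        intro h
        rw [h, zero_mul, neg_zero, e0] at ha
        rcases hκ with h' | h' <;> rw [h'] at ha <;> norm_num at ha
      obtain ⟨w, hw⟩ : ∃ w, w = y₁.rep - a • y₂.rep := ⟨_, rfl⟩
      have hpw : ∀ x : V, QuadraticMap.polar Q w x =
          QuadraticMap.polar Q y₁.rep x - a * QuadraticMap.polar Q y₂.rep x := by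
        intro x
        rw [hw, sub_eq_add_neg, ← neg_smul, QuadraticMap.polar_add_left,
          QuadraticMap.polar_smul_left, smul_eq_mul]
        ring
      have hQw : Q w = -(a * φ) := by
        rw [hw, sub_eq_add_neg, ← neg_smul, QuadraticMap.map_add Q, hO.1 y₁ hy₁,
          QuadraticMap.map_smul, hO.1 y₂ hy₂, QuadraticMap.polar_smul_right, ← hφ, smul_eq_mul,
          smul_eq_mul]
        ring
      have hQw0 : Q w ≠ 0 := by
        rw [hQw]
        exact neg_ne_zero.2 (mul_ne_zero ha0 hφ0)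
      have hcw := hK w hQw0
      rw [hQw, ha.2] at hcw
      have hκκ : κ * κ = 1 := by
        rcases hκ with h | h <;> rw [h] <;> norm_num
      rw [hκκ] at hcw
      have hq0 : 0 < Nat.card F := Nat.card_pos
      have hset : O'.filter (fun y => c y = a) =
          O.filter (fun y => QuadraticMap.polar Q w y.rep = 0) := by
        ext y
        rw [Finset.mem_filter, Finset.mem_filter, hmem, hpw]
        constructor
        · rintro ⟨⟨h5, h6, h7⟩, h8⟩
          refine ⟨h5, ?_⟩
          rw [hc] at h8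
          simp only at h8
          have h9 := hf2 y ((hmem y).2 ⟨h5, h6, h7⟩)
          rw [div_eq_iff h9] at h8
          rw [h8, sub_self]
        · rintro ⟨h5, h6⟩
          have h7 : y ≠ y₁ := by
            intro h
            rw [h, hself y₁ hy₁, QuadraticMap.polar_comm Q y₂.rep y₁.rep, ← hφ, zero_sub,
              neg_eq_zero] at h6
            exact mul_ne_zero ha0 hφ0 h6
          have h8 : y ≠ y₂ := by
            intro h
            rw [h, hself y₂ hy₂, ← hφ, mul_zero, sub_zero] at h6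
            exact hφ0 h6
          refine ⟨⟨h5, h7, h8⟩, ?_⟩
          rw [hc]
          simp only
          rw [div_eq_iff (hf2 y ((hmem y).2 ⟨h5, h7, h8⟩))]
          exact sub_eq_zero.1 h6
      rw [hset]
      rcases h2 F hF V Q hq w hQw0 with h | h
      · exact h.2 O hO
      · exfalso
        have h' : ((sp Q (prp Q w)).card : ℤ) ≤ (Nat.card F : ℤ) ^ 2 + 1 := by exact_mod_cast h
        rw [hcw] at h'
        have h'' : (0 : ℤ) < Nat.card F := by exact_mod_cast hq0
        linarith
    have hAc : A.card = C.card * (Nat.card F + 1) := by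
      have hmaps : ∀ y ∈ A, c y ∈ C := by
        intro y hy
        rw [hA, Finset.mem_filter] at hy
        rw [hC, Finset.mem_filter]
        exact ⟨Finset.mem_univ _, hy.2⟩
      rw [Finset.card_eq_sum_card_fiberwise hmaps]
      have : ∀ a ∈ C, (A.filter (fun y => c y = a)).card = Nat.card F + 1 := by
        intro a ha
        rw [← hn a ha]
        congr 1
        ext y
        rw [Finset.mem_filter, Finset.mem_filter, hA, Finset.mem_filter]
        constructor
        · rintro ⟨⟨h5, -⟩, h6⟩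
          exact ⟨h5, h6⟩
        · rintro ⟨h5, h6⟩
          refine ⟨⟨h5, ?_⟩, h6⟩
          rw [h6]
          rw [hC, Finset.mem_filter] at ha
          exact ha.2
      rw [Finset.sum_congr rfl this, Finset.sum_const, smul_eq_mul]
    have hfin : (2 : ℤ) * A.card = O'.card := by
      have hq1 : 1 ≤ Nat.card F := Nat.card_pos
      have e5 : 2 * A.card = O'.card := by
        rw [hAc, hO'c, ← mul_assoc, hCc]
        obtain ⟨k, hk⟩ : ∃ k, Nat.card F = k + 1 := ⟨Nat.card F - 1, by omega⟩
        rw [hk]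
        have : (k + 1) ^ 2 = k * (k + 2) + 1 := by ring
        rw [this, Nat.add_sub_cancel, Nat.add_sub_cancel]
      exact_mod_cast e5
    rw [hs1, Finset.sum_congr rfl hs2, ← Finset.mul_sum, Finset.sum_congr rfl hs3,
      Finset.sum_sub_distrib, ← Finset.sum_filter, ← hA, Finset.sum_const, Finset.sum_const,
      nsmul_eq_mul, nsmul_eq_mul]
    have : (A.card : ℤ) * 2 - (O'.card : ℤ) * 1 = 0 := by linarith
    rw [this, mul_zero]

end Pool.Agent.Helper45.PQ
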