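import Pool.Agent.Helper45.PQ.Asm
import Pool.Agent.Helper8.HE.M_CAW
import Pool.Agent.Helper2.PQ.M_PPR
import Pool.Agent.Helper5.PQ.M_CNT
import Pool.Agent.Helper7.PQ.M_CSB
import Pool.Agent.Helper8.PQ.M_KAP
import Pool.Agent.Helper9.PQ.M_CWS
import Pool.Agent.Helper11.PQ.M_OBL
import Pool.Agent.Helper12.PQ.M_CSA
import Pool.Agent.Helper14.PQ.M_DGT
import Pool.Agent.Helper15.PQ.M_DEG
import Pool.Agent.Helper21.PQ.M_PKM
import Pool.Agent.Helper24.PQ.M_QDP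
import Pool.Agent.Helper29.PQ.M_FIK
import Pool.Agent.Helper30.PQ.M_OWK
import Pool.Agent.Helper33.PQ.M_OVP
import Pool.Agent.Helper34.PQ.M_NU4
import Pool.Agent.Helper36.PQ.M_RKG
import Pool.Agent.Helper37.PQ.M_LTP
import Pool.Agent.Helper37.PQ.M_RKA
import Pool.Agent.Helper40.PQ.M_ZER
import Pool.Agent.Helper41.PQ.M_NU2
import Pool.Agent.Helper42.PQ.M_ONA
import Pool.Agent.Helper45.PQ.M_QFB
import Pool.Agent.Helper45.PQ.M_SSQ
import Pool.Agent.Helper47.PQ.M_VAR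
import Pool.Agent.Helper54.PQ.M_NU3
import Pool.Agent.Helper54.PQ.M_OVD
import Pool.Agent.Helper63.PQ.M_GQA
import Pool.Agent.Helper63.PQ.M_MMT
import Pool.Agent.Helper70.PQ.M_EXT
import Pool.Agent.Helper75.PQ.M_NWR
import Pool.Agent.Helper75.PQ.M_PST
import Pool.Agent.Helper76.PQ.M_TBD
import Pool.Agent.Helper80.PQ.M_PNB
import Pool.Agent.Helper81.PQ.M_ONB
import Pool.Agent.Helper82.PQ.M_LPB
import Pool.Agent.Helper82.PQ.M_NWD
import Pool.Agent.Helper89.PQ.M_HSM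
import Pool.Agent.Helper89.PQ.M_PBS
import Pool.Agent.Helper94.PQ.M_NUA
import Pool.Agent.Helper95.PQ.M_ETA
import Pool.Agent.Helper97.PQ.M_XZ
import Pool.Agent.Helper99.PQ.M_BIN
import Pool.Agent.Helper99.PQ.M_KSP

/-!
# Project PQ (MP_a1f43d_co): parabolic quadrics over the finite fields of characteristic three
-/

set_option autoImplicit false

open Module Classical
open scoped LinearAlgebra.Projectivization

namespace Pool.Agent.Helper45.PQ

open Pool.Agent.Helper53.PB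

universe u v

theorem hCAW : StCAW.{v} := fun α r hr S => (Pool.Agent.Helper8.HE.hCAW α r hr S).1

/-- no configuration of heavy points -/
theorem cfg_none {F : Type u} {V : Type v} [Field F] [Finite F] [AddCommGroup V] [Module F V]
    [FiniteDimensional F V] (Q : QuadraticForm F V) (T H : Finset (ℙ F V)) (m : ℙ F V → ℕ)
    (h j : ℕ) (c : Cfg Q T H m h j) : False := by
  have iRKA : StRKA.{u, v} := Helper37.PQ.hRKA Helper36.PQ.hRKG
  have iDEG : StDEG.{u, v} := Helper15.PQ.hDEG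
  have iDGT : StDGT.{u, v} := Helper14.PQ.hDGT iDEG
  have iCNT : StCNT.{u, v} := Helper5.PQ.hCNT
  have iLTP : StLTP.{u, v} := Helper37.PQ.hLTP iCNT
  have iOWK : StOWK.{u, v} := Helper30.PQ.hOWK
  have iGQA : StGQA.{u, v} := Helper63.PQ.hGQA iCNT iLTP iOWK
  have iNWD : StNWD.{u, v} := Helper82.PQ.hNWD iCNT iLTP iOWK
  have iETA : StETA.{u} := Helper95.PQ.hETA
  have iKAP : StKAP.{u, v} := Helper8.PQ.hKAP iGQA iNWD Helper75.PQ.hNWR iETA
  have iSSQ : StSSQ.{u, v} := hSSQ iGQA iNWD iETA iKAP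
  have iMMT : StMMT.{u, v} := Helper63.PQ.hMMT iGQA iKAP iSSQ hQFB iETA
  have iPIK : StPIK.{u, v} := Helper21.PQ.hPKM iGQA iMMT Helper29.PQ.hFIK
  have iTBD : StTBD.{u, v} := Helper76.PQ.hTBD hCAW iDGT iRKA
  exact cfg_false iTBD (Helper99.PQ.hBIN (Helper9.PQ.hCWS hCAW) iDGT iRKA)
    (Helper89.PQ.hHSM iTBD) (Helper40.PQ.hZER iDGT iRKA)
    (Helper12.PQ.hCSA (Helper47.PQ.hVAR iCNT) iDEG)
    (Helper7.PQ.hCSB (Helper97.PQ.hXZ iCNT) Helper99.PQ.hKSP Helper54.PQ.hOVD iPIK)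
    (Helper42.PQ.hONA iDGT iRKA) (Helper81.PQ.hONB iDGT iRKA) Helper41.PQ.hNU2 Helper54.PQ.hNU3
    (Helper34.PQ.hNU4 Helper94.PQ.hNUA) c

theorem par_three {F : Type u} [Field F] [Finite F] {h : ℕ} (hF : Nat.card F = 3 ^ h) (h1 : 1 ≤ h)
    (n : ℕ) : ClassMin.{u, v} F .orthogonal (2 * (n + 4) + 1) (n + 4)
      (Nat.card F ^ (n + 4) + Nat.card F ^ (n + 1)) :=
  par_class
    (fun F _ _ _h hF h1 V _ _ _ φ hφ hp => par_seven_upper Helper80.PQ.hPNB
      (Helper33.PQ.hOVP Helper89.PQ.hPBS) Helper11.PQ.hOBL hF h1 V φ hφ hp)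
    (fun F _ _ _h hF h1 V _ _ _ φ hφ hp T hT => par_nine_lower
      (Helper75.PQ.hPST Helper80.PQ.hPNB) (Helper70.PQ.hEXT Helper24.PQ.hQDP Helper82.PQ.hLPB)
      (fun F _ _ V _ _ _ Q T H m h j c => cfg_none Q T H m h j c) hF h1 V φ hφ hp T hT)
    hF h1 n

end Pool.Agent.Helper45.PQ
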