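import Pool.Agent.Helper45.PQ.Defs

/-!
# Project PQ (MP_a1f43d_co): statements with complete proofs, first part

Every `StXXX` is proved in one module as `theorem hXXX`, with the other statements it uses as
hypotheses (they are named in the docstring).

Everywhere: `q = Nat.card F`, `f x y = QuadraticMap.polar Q x y`; `f` is bilinear and symmetric
(`QuadraticMap.polar_add_left`, `polar_smul_left`, `polar_comm`, ..., or the bilinear map
`QuadraticMap.polarBilin Q`); `Q (c • x) = c * c * Q x` (`QuadraticMap.map_smul`), `Q (x + y) = Q x + Q y + f x y`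
(`QuadraticMap.map_add`), `f x x = 2 Q x` (`polar_self_two`).  Useful lemmas of
`Pool.Agent.Helper53.PB.Count`: `eq_of_rep_mem_span`, `left_mem_line`, `right_mem_line`, `line_le`, `finrank_line`,
`mem_line`, `line_eq`; of `PB.Indep`: `line_ts`, `eps_pos`.  `PB` stands for `Pool.Agent.Helper53.PB`.
-/

set_option autoImplicit false

open Module Classical
open scoped LinearAlgebra.Projectivization

namespace Pool.Agent.Helper45.PQ

open Pool.Agent.Helper53.PB (tt line HasParams Form Setup Polar Nb Kind)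

universe u v

/-- PNB (neighbours of a generator of a parabolic space).  Adapt `PB.hyp_nb` (file
`Helper53/PB/HypNb.lean`): same proof with one more parameter.

PROOF. `φ = Form.orthogonal Q nd`. As there: `Q = 0` and `f = 0` on `U`, and `surj_dual Q nd`: every `g : Dual F U`
is `u ↦ f y u` for some `y`. (0) `U^⊥ = {y | f y u = 0 for all u ∈ U}` is the kernel of a surjective map
`V → Dual F U` (see `PB.perp_self`), so `finrank U^⊥ = (2 r + 1) - r = r + 1`, and `U ≤ U^⊥`. Choose `z ∈ U^⊥`, `z ∉ U`;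
then `U^⊥ = U ⊔ span {z}`, and `Q z ≠ 0` (otherwise `U ⊔ span {z}` is totally singular, against the maximality of `U`).
(1) For `G : ℙ F (Dual F U)` let `Y G` be singular with `f (Y G) u = G.rep u` (`PB.exists_sing`). For `c : F` choose
`w = w(c, G) ∈ U` with `f (Y G) w = -(c² Q z + c f (Y G) z)` (`G.rep` is a nonzero functional, so surjective). Put
`y(c, G) = Y G + c z + w`. Then `Q (y(c, G)) = 0` (use `Q w = 0`, `f z w = 0`), and `f (y(c, G)) u = G.rep u` on `U`.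
Fix a bijection `i ↦ c_i` from `Fin (Nat.card F)` to `F` (`Finite.equivFin`). `nb (i, G) = ker G.rep` (mapped into `V`)
`⊔ span {y(c_i, G)}`. (2) `gen`, `inU`, `perp` are exactly as in `PB.hyp_nb`. (3) `out`: let `x` be singular, `x ∉ U`.
`g = f x | U` is not zero (`Gen.not_le`), `G = [g]`, and there is `a ≠ 0` with `f (a x) u = G.rep u` on `U`. `a x - Y G ∈ U^⊥`,
so `a x = Y G + c z + w'` with `w' ∈ U`. `0 = Q (a x) = c² Q z + c f (Y G) z + f (Y G) w'`, so `w' - w(c, G) ∈ ker G.rep` and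
`x ∈ nb (i, G)` for `c_i = c`. Uniqueness: if `x ∈ nb (i', G')` then `x = k + c₀ y(c_{i'}, G')` with `k ∈ ker G'.rep`, `c₀ ≠ 0`
(`x ∉ U`), `f x = c₀ G'.rep` on `U`, so `G' = G`, `a c₀ = 1`, and `a x = Y G + c_{i'} z + (element of U)`; `z ∉ U` gives
`c_{i'} = c`. -/
def StPNB : Prop := ∀ (F : Type u) [Field F] [Finite F] (V : Type v) [AddCommGroup V] [Module F V]
  [FiniteDimensional F V] (φ : Form F V) (r : ℕ), φ.kind = Kind.orthogonal → finrank F V = 2 * r + 1 →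
  (∀ U, φ.toPolar.Gen U → finrank F U = r) → ∀ U, φ.toPolar.Gen U →
  Nonempty (Nb φ.toPolar U (Fin (Nat.card F)))

/-- PST (the `Setup` for a smallest blocking set of a parabolic space; uses PNB).

PROOF. Copy `PB.hyp_setup` (file `Helper53/PB/HypMain.lean`) with `Fin (Nat.card F)` instead of `Unit`
(`Fintype.card (Fin (Nat.card F)) = Nat.card F`, `Fintype.card_fin`). -/
def StPST : Prop := ∀ (F : Type u) [Field F] [Finite F] (V : Type v) [AddCommGroup V] [Module F V]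
  [FiniteDimensional F V] (φ : Form F V) (k : ℕ), φ.kind = Kind.orthogonal →
  HasParams φ (2 * (k + 2) + 1) (k + 2) → ∀ T : Finset (ℙ F V), φ.toPolar.Block T →
  (∀ T', φ.toPolar.Block T' → T.card ≤ T'.card) →
  ∃ j, Setup φ.toPolar T (Fin (Nat.card F)) k j

/-- LPB (points of `T` perpendicular to a totally singular line).

PROOF. Let `l = line A B`, `U ⊇ l` a generator (`PB.Polar.exists_gen_ge`), `finrank U = 4` (`S.gen`), `N` neighbours (`S.nbs`).
(a) every totally singular subspace `E` (in particular a generator) has `tt T E ≤ 1 + j`: if `z ∈ T` is in `E`, all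
points of `T` in `E` are perpendicular to `z`: `PB.nn_self_le S`. (b) Let `y ∈ T` be perpendicular to `A`, `B`, `y ∉ U`.
`N.out` gives `p` with `y ∈ N.nb p`, and by `N.perp`, `p.2.rep` vanishes at `A.rep` and `B.rep` (as elements of `U`).
So the number of `y` is at most `tt T U + ∑_{p ∈ D} tt T (N.nb p)`, where `D` is the set of the `p` for which `p.2.rep` vanishes
at `A.rep`, `B.rep`, and `D.card = Fintype.card ι * (q + 1)` by `PB.card_eval_two` (with `n = 2`, `PB.geo_two`;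
`PB.rep_ne` for the independence of `A`, `B`). -/
def StLPB : Prop := ∀ (F : Type u) [Field F] [Finite F] (V : Type v) [AddCommGroup V] [Module F V]
  [FiniteDimensional F V] (P : Polar F V) (T : Finset (ℙ F V)) (ι : Type) [Fintype ι] (j : ℕ),
  Setup P T ι 2 j → ∀ A B : ℙ F V, A ≠ B → P.TS (line A B) →
  (T.filter (fun y => P.f y.rep A.rep = 0 ∧ P.f y.rep B.rep = 0)).card ≤
    (1 + j) * (1 + Fintype.card ι * (Nat.card F + 1))

/-- PPR (parameters of a form in odd dimension).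

PROOF. Put `P = (Form.orthogonal Q nd).toPolar`. By `PB.isGenerator_iff` let `U` be a generator, `finrank U = s`. The map
`V → Dual F U`, `y ↦ f y |_U`, is surjective (`PB.surj_dual Q nd`), so its kernel `U^⊥` has dimension `2 r + 1 - s`; `U ≤ U^⊥`, so
`s ≤ r`. Suppose `s < r`. `U^⊥` contains a complement `C` of `U` of dimension `2 r + 1 - 2 s ≥ 3`. It is enough to find
`c ∈ C`, `c ≠ 0`, `Q c = 0`: then `U ⊔ span {c}` is totally singular (`sing_sup`) and larger than `U`. Take `C₃ ≤ C` with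
`finrank C₃ = 3`; we find `0 ≠ c ∈ C₃` with `Q c = 0`. Suppose there is none. Choose `0 ≠ a ∈ C₃`; `Q a ≠ 0`, `f a a = 2 Q a ≠ 0`,
so `C₃ ⊓ ker (f a)` has dimension 2; choose `0 ≠ b` there, `f b b ≠ 0`, and `0 ≠ d` in `C₃ ⊓ ker (f a) ⊓ ker (f b)`
(dimension at least 1). `Q (x a + y b + d) = x² Q a + y² Q b + Q d`, and there are `x, y` with `x² Q a + y² Q b = -Q d`
(`FiniteField.exists_root_sum_quadratic`, or: the sets `{x² Q a}` and `{-Q d - y² Q b}` have `(q + 1) / 2` elements each). The vector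
`x a + y b + d` is not zero (pair it with `d`: `f d d ≠ 0`), a contradiction. (Alternatively use Chevalley-Warning,
`char_dvd_card_solutions`.) -/
def StPPR : Prop := ∀ (F : Type u) [Field F] [Finite F], (2 : F) ≠ 0 → ∀ (V : Type v) [AddCommGroup V]
  [Module F V] [FiniteDimensional F V] (Q : QuadraticForm F V)
  (nd : ∀ x, Q x = 0 → (∀ y, QuadraticMap.polar Q x y = 0) → x = 0) (r : ℕ),
  finrank F V = 2 * r + 1 → HasParams (Form.orthogonal Q nd) (2 * r + 1) r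

/-- QDP (from `HasParams` to `Qd`).

PROOF. `hd`: first part of `HasParams`. `nd`: if `f x y = 0` for all `y` then `2 Q x = f x x = 0` (`polar_self_two`), so `Q x = 0`. `ext`: a
subspace on which `Q` vanishes is totally singular (`polar_zero`), apply `PB.Polar.exists_gen_ge` and `PB.class_gen`. `mx`: it lies in
such a `G`. -/
def StQDP : Prop := ∀ (F : Type u) [Field F] [Finite F], (2 : F) ≠ 0 → ∀ (V : Type v) [AddCommGroup V]
  [Module F V] [FiniteDimensional F V] (Q : QuadraticForm F V)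
  (nd : ∀ x, Q x = 0 → (∀ y, QuadraticMap.polar Q x y = 0) → x = 0) (d r : ℕ),
  HasParams (Form.orthogonal Q nd) d r → Qd Q d r

/-- EXT (helper53's weights give a `Cfg`; uses QDP, LPB).  Adapt `Pool/Agent/Helper99/HE/M_EXT.lean`.

PROOF. Let `P = (Form.orthogonal Q nd).toPolar`, `q = Nat.card F`, `s = Fintype.card (Fin q) = q`. `j (q + 1) < q ^ 3` because
`j + 2 ≤ q`; write `hJ` for this in the form `j * (q + 1) < Fintype.card (Fin q) * q ^ 2`.
`H = univ.filter (fun X => 0 < PB.eps P T X)` and `m = PB.eps P T`. Fields. `qd`: QDP (`(2 : F) ≠ 0` as `q = 3 ^ h`). `sT`: `S.block.1`.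
`sH`, `dis`: `PB.eps_pos`. `cT`: `S.card`. `mp`: definition of `H`. `ms`: `PB.total_weight S hJ`. `ln`: `PB.line_weight S hJ` applied to
`P ≠ X`, the totally singular line `PB.line_ts`, and `z = P`; `∑ X ∈ pts l, eps P T X = mass H m l` (drop the zero
terms, `PB.mem_pts`). `gn`: `PB.gen_weight S hJ`; a subspace of dimension 4 on which `Q` vanishes is a generator
(`PB.Polar.gen_of_finrank`). `lo`, `up`: `PB.nn_lower S` with `PB.eps_not` (`tmin = 1 + eps` by its first inequality), the middle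
one is `lo` (`s q² + 1 = q³ + 1`), the last one is `up`; `P.nn T R = nu Q T R.rep` by `QuadraticMap.polar_comm`.
`lp`: LPB for `A = R`, `B = S` (`PB.line_ts`), `(1 + j)(1 + q (q + 1)) ≤ (q - 1)(q² + q + 1) = q³ - 1`. -/
def StEXT : Prop := ∀ (F : Type u) [Field F] [Finite F] (V : Type v) [AddCommGroup V] [Module F V]
  [FiniteDimensional F V] (Q : QuadraticForm F V)
  (nd : ∀ x, Q x = 0 → (∀ y, QuadraticMap.polar Q x y = 0) → x = 0) (h j : ℕ)
  (T : Finset (ℙ F V)), Nat.card F = 3 ^ h → 1 ≤ h → HasParams (Form.orthogonal Q nd) 9 4 →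
  Setup (Form.orthogonal Q nd).toPolar T (Fin (Nat.card F)) 2 j → j + 2 ≤ Nat.card F →
  ∃ (H : Finset (ℙ F V)) (m : ℙ F V → ℕ), Cfg Q T H m h j

/-- RKG (rank bound in characteristic three).  Adapt `PB.rank_bound` (file `Helper53/PB/RankBd.lean`).

PROOF. `F` has characteristic 3, `q - 1 = 3 ^ h - 1 = 2 ∑_{t < h} 3 ^ t`. So
`g i l ^ (q - 1) = ∏_{t < h} (g i l ^ 2) ^ (3 ^ t) = ∏_t ∑_k (u i k) ^ (3 ^ t) (w l k) ^ (3 ^ t)` (Frobenius,
`map_sum (iterateFrobenius F 3 t)`) `= ∑_{κ : Fin h → Fin D} (∏_t u i (κ t) ^ 3 ^ t) (∏_t w l (κ t) ^ 3 ^ t)`, and it is `0` for `i = l`, `1`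
for `i ≠ l` (`FiniteField.pow_card_sub_one_eq_one`). The rest is word for word `PB.rank_bound`: the linear map
`(α → F) → ((Fin h → Fin D) → F) × F`, `a ↦ (∑ a_i U_i, ∑ a_i)`, is injective. -/
def StRKG : Prop := ∀ (F : Type u) [Field F] [Finite F] (h D : ℕ), Nat.card F = 3 ^ h → 1 ≤ h →
  ∀ (α : Type v) [Fintype α] (g : α → α → F) (a b : α → Fin D → F),
  (∀ i, g i i = 0) → (∀ i l, i ≠ l → g i l ≠ 0) →
  (∀ i l, g i l ^ 2 = ∑ k, a i k * b l k) → Fintype.card α ≤ D ^ h + 1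

/-- RKA (pairwise non-perpendicular points; uses RKG).

PROOF. (2) Choose a basis `b_1, .., b_6` of `W`. For `x, y ∈ W`: `f x y = ∑_k x_k f(b_k, y)`, so
`f(x,y)² = ∑_{k,l} x_k x_l f(b_k,y) f(b_l,y) = ∑_{k ≤ l} c_{kl} x_k x_l f(b_k,y) f(b_l,y)`, `c_{kk} = 1`, `c_{kl} = 2` for `k < l`
(a sum over all pairs of a symmetric function): `21` terms. Apply RKG with `α = I`, `D = 21`. `f(x,x) = 2 Q x = 0` for the points of `I`.
(1) The same with a basis `b_1, .., b_9` of `V`: `45` terms. One of them can be removed: for `x` singular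
`0 = f(x, x) = ∑_{k ≤ l} c_{kl} F_{kl} x_k x_l`, `F_{kl} = f(b_k, b_l)`, and some `F_p = F_{kl} ≠ 0` (otherwise `f = 0`, and
`2 Q x = f x x = 0` for all `x`); `c_p ≠ 0` in characteristic three. With `x_s = x_k x_l`, `g_s(y) = c_s f(b_k,y) f(b_l,y)` for `s = (k,l)`, `k ≤ l`:
`x_p = -∑_{s ≠ p} (c_s F_s / (c_p F_p)) x_s`, so `f(x,y)² = ∑_{s ≠ p} x_s (g_s(y) - (c_s F_s / (c_p F_p)) g_p(y))`: `44` terms.
(An equivalence of `{s // s ≠ p}`, `s = (k, l)`, `k ≤ l` in `Fin 9`, with `Fin 44` by cardinality, `Fintype.equivFinOfCardEq`,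
the cardinality by `decide` or `rfl`-type computations.) -/
def StRKA : Prop := ∀ (F : Type u) [Field F] [Finite F] (V : Type v) [AddCommGroup V] [Module F V]
  [FiniteDimensional F V] (Q : QuadraticForm F V) (h : ℕ), Nat.card F = 3 ^ h → 1 ≤ h →
  (finrank F V = 9 → (∃ x, Q x ≠ 0) → ∀ I : Finset (ℙ F V), (∀ P ∈ I, Q P.rep = 0) →
    (∀ P ∈ I, ∀ R ∈ I, P ≠ R → QuadraticMap.polar Q P.rep R.rep ≠ 0) → I.card ≤ 44 ^ h + 1) ∧
  ∀ W : Submodule F V, finrank F W = 6 → ∀ I : Finset (ℙ F V), (∀ P ∈ I, P.rep ∈ W ∧ Q P.rep = 0) →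
    (∀ P ∈ I, ∀ R ∈ I, P ≠ R → QuadraticMap.polar Q P.rep R.rep ≠ 0) → I.card ≤ 21 ^ h + 1

/-- DEG (neighbours of a point of `T`).  Compare `Pool/Agent/Helper89/HE/M_DCG.lean`.

PROOF. For `X ∈ A` the line `l = line P X` is totally singular, `tt T l = 1 + mass H m l` (`c.ln`). Let `Λ = A.image (fun X => line P X)`. Every
`l ∈ Λ` contains `P`, so `(T.filter (rep ∈ l)).erase P` has `mass H m l` elements; `A ⊆ ⋃_{l ∈ Λ}` of these sets, so
`A.card ≤ ∑_{l ∈ Λ} mass H m l` (`Finset.card_biUnion_le`). For `R ∈ H` there is at most one `l ∈ Λ` with `R ∈ l`, namely `line P R`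
(`R ≠ P` by `c.dis`, `PB.line_eq`), and such `R` belong to the index set on the right. So
`∑_{l ∈ Λ} ∑_{R ∈ H, R ∈ l} m R ≤ ∑` on the right (`Finset.sum_comm'`, or `Finset.sum_biUnion` / `sum_fiberwise`). -/
def StDEG : Prop := ∀ (F : Type u) [Field F] [Finite F] (V : Type v) [AddCommGroup V] [Module F V]
  [FiniteDimensional F V] (Q : QuadraticForm F V) (T H : Finset (ℙ F V)) (m : ℙ F V → ℕ) (h j : ℕ),
  Cfg Q T H m h j → ∀ P ∈ T, ∀ A ⊆ T, (∀ X ∈ A, X ≠ P ∧ QuadraticMap.polar Q P.rep X.rep = 0) →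
  A.card ≤ ∑ R ∈ H.filter (fun R => ∃ X ∈ A, R.rep ∈ line P X), m R

/-- DGT (corollaries of DEG).

PROOF. (2) DEG with `A` = the set on the left; if `R ∈ line P X`, then `f P R = 0` because `f P P = f P X = 0`. (1) is (2) plus the point `P`
itself, with `∑ ≤ ∑_{R ∈ H} m R = j` (`c.ms`). (3) If no point of `T` is in `E`, `tt T E = 0`. Otherwise take one, `P`; all points of `T`
in `E` are perpendicular to `P` (`polar_zero`): (1). -/
def StDGT : Prop := ∀ (F : Type u) [Field F] [Finite F] (V : Type v) [AddCommGroup V] [Module F V]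
  [FiniteDimensional F V] (Q : QuadraticForm F V) (T H : Finset (ℙ F V)) (m : ℙ F V → ℕ) (h j : ℕ),
  Cfg Q T H m h j →
  (∀ P ∈ T, (T.filter (fun X => QuadraticMap.polar Q P.rep X.rep = 0)).card ≤ 1 + j) ∧
  (∀ P ∈ T, (T.filter (fun X => X ≠ P ∧ QuadraticMap.polar Q P.rep X.rep = 0)).card ≤
    ∑ R ∈ H.filter (fun R => QuadraticMap.polar Q P.rep R.rep = 0), m R) ∧
  ∀ E : Submodule F V, (∀ x ∈ E, Q x = 0) → tt T E ≤ 1 + j

/-- CAW (Caro-Wei): proved as `Pool.Agent.Helper8.HE.hCAW` for `Pool.Agent.Helper13.HE.StCAW` (the same statement). -/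
def StCAW : Prop := ∀ (α : Type v) (r : α → α → Prop), (∀ x y, r x y → r y x) → ∀ S : Finset α,
  ∃ I ⊆ S, (∀ x ∈ I, ∀ y ∈ I, x ≠ y → ¬ r x y) ∧
    ∑ x ∈ S, (1 : ℚ) / (1 + ((S.filter (fun y => y ≠ x ∧ r x y)).card : ℚ)) ≤ I.card

/-- CWS (Caro-Wei and Cauchy-Schwarz; uses CAW).

PROOF. Let `d_x` be the degree in `S`, `I` as in CAW. By Cauchy-Schwarz (`Finset.sum_mul_sq_le_sq_mul_sq`, or
`Finset.inner_mul_le_norm_mul_norm`, `div_add_div_same`, Titu's lemma `Finset.sum_div_...`):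
`|S|² = (∑_{x ∈ S} 1)² ≤ (∑ 1/(1+d_x)) (∑ (1+d_x)) ≤ |I| (|S| + Δ)`. -/
def StCWS : Prop := ∀ (α : Type v) (r : α → α → Prop), (∀ x y, r x y → r y x) →
  ∀ (S : Finset α) (Δ : ℕ), ∑ x ∈ S, (S.filter (fun y => y ≠ x ∧ r x y)).card ≤ Δ →
  ∃ I ⊆ S, (∀ x ∈ I, ∀ y ∈ I, x ≠ y → ¬ r x y) ∧ S.card ^ 2 ≤ I.card * (S.card + Δ)

/-- TBD (weighted Caro-Wei bound; uses CAW, DGT, RKA).  Adapt `Pool/Agent/Helper16/HE/M_TBD.lean`.

PROOF. For `P ∈ T` let `H_P = {R ∈ H | f P R = 0}`, `M_P = ∑_{R ∈ H_P} m R`. CAW for `S = T`, `r P X ↔ f P.rep X.rep = 0`, and DGT (2)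
(degree `≤ M_P`) give `I ⊆ T`, pairwise not perpendicular, with `I.card ≥ ∑_{P ∈ T} 1/(1+M_P)`; and
`I.card ≤ 44 ^ h + 1` by RKA (1) (`Q ≠ 0`: otherwise `⊤` is totally singular of dimension 9, against `c.qd.mx`).
Put `c(m) = m/(1+m) - 1/3 = (2m-1)/(3(m+1))`. CLAIM: `1/(1+M_P) ≥ 2/3 - ∑_{R ∈ H_P} c(m R)`. Proof by `Finset` induction of: for
a finite set `A ⊆ H`, `g(A) = 1/(1+∑_A m) + ∑_A c(m)` is `≥ 2/3`: `g(∅) = 1`; `g({R}) = 2/3`;
if `A ≠ ∅`, `M = ∑_A m ≥ 1`, and `m ≥ 1` is added, then `1/(1+M) - 1/(1+M+m) = m/((1+M)(1+M+m)) ≤ m/(2(2+m)) ≤ c(m)`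
(the last step is `3m(m+1) ≤ 2(2m-1)(m+2)`, i.e. `0 ≤ (m+4)(m-1)`).
Sum over `T`: `∑_P ∑_{R ∈ H_P} c(m R) = ∑_{R ∈ H} nu(R) c(m R)` (`nu Q T R.rep`), and `c.up`:
`nu(R) c(m R) ≤ ((1+m)q³ + 1 + j) c(m) = (2m-1)q³/3 + (1+j) c(m)`. So
`44^h + 1 ≥ (2/3)(q⁴+1+j) - (2j-t)q³/3 - (1+j) ∑ c(m R)`; multiply by 3. -/
def StTBD : Prop := ∀ (F : Type u) [Field F] [Finite F] (V : Type v) [AddCommGroup V] [Module F V]
  [FiniteDimensional F V] (Q : QuadraticForm F V) (T H : Finset (ℙ F V)) (m : ℙ F V → ℕ) (h j : ℕ),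
  Cfg Q T H m h j →
  (2 * ((Nat.card F : ℚ) - j) + H.card) * (Nat.card F : ℚ) ^ 3 + 2 * (1 + j) ≤
    3 * ((44 : ℚ) ^ h + 1) + (1 + j) * ∑ R ∈ H, (2 * (m R : ℚ) - 1) / ((m R : ℚ) + 1)

/-- BIN (two more Caro-Wei bounds; uses CWS, DGT, RKA).

PROOF. Put `A = 44 ^ h + 1`; independent sets have at most `A` points by RKA (1) (`Q ≠ 0`, see TBD).
(1) CWS with `S = T`, `r P X ↔ f P X = 0`: by DGT (2) `∑_{P ∈ T} degree ≤ ∑_P ∑_{R ∈ H, f P R = 0} m R = ∑_{R ∈ H} m R nu(R) ≤ E`,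
`E = ∑_{R ∈ H} m R ((1 + m R) q³ + 1 + j)` (`c.up`). So `|T|² ≤ A (|T| + E)`, i.e. `|T| (|T| - A) ≤ A E`. If `n = q⁴ ≤ |T|` had
`n² > A (n + E)`, then `n > A` and `|T| (|T| - A) ≥ n (n - A) > A E`, a contradiction.
(2) The same with `S = {P ∈ T | f P R ≠ 0}`: `|S| = |T| - nu(R) ≥ q⁴ + 1 + j - (1 + m R) q³ - 1 - j = μ q³`; for `P ∈ S`
the degree in `S` is at most the number in DGT (2), a sum over heavy points perpendicular to `P`, and `R` is not among them:
`∑_{P ∈ S} degree ≤ ∑_{Z ∈ H.erase R} m Z nu(Z)`. The monotonicity argument is the same (with `n = μ q³`). -/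
def StBIN : Prop := ∀ (F : Type u) [Field F] [Finite F] (V : Type v) [AddCommGroup V] [Module F V]
  [FiniteDimensional F V] (Q : QuadraticForm F V) (T H : Finset (ℙ F V)) (m : ℙ F V → ℕ) (h j : ℕ),
  Cfg Q T H m h j →
  (Nat.card F ^ 8 ≤ (44 ^ h + 1) *
    (Nat.card F ^ 4 + ∑ R ∈ H, m R * ((1 + m R) * Nat.card F ^ 3 + 1 + j))) ∧
  ∀ R ∈ H, ∀ μ : ℕ, μ + 1 + m R = Nat.card F → (μ * Nat.card F ^ 3) ^ 2 ≤ (44 ^ h + 1) *
    (μ * Nat.card F ^ 3 + ∑ S ∈ H.erase R, m S * ((1 + m S) * Nat.card F ^ 3 + 1 + j))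

/-- HSM (there are few heavy points; uses TBD).

PROOF. Put `t = H.card`, suppose `2 t ≥ q + 2`. Each `(2m-1)/(m+1) ≤ 2`, `q - j ≥ 2`, so TBD gives
`(4 + t) q³ + 2 (1+j) ≤ 3 (44^h + 1) + 2 t (1+j)`; with `1 + j ≤ q - 1` (coefficient `2 - 2 t ≤ 0`): `t (q³ - 2 q + 2) ≤ 3·44^h + 3 - 4 q³`. Hence
`(q + 2)(q³ - 2 q + 2) ≤ 6·44^h + 6 - 8 q³`, i.e. `q⁴ + 10 q³ - 2 q² - 2 q + 4 ≤ 6·44^h + 6`. For `h = 1, 2, 3` (`q = 3, 9, 27`) the left side is
`331, 13675, 726763` and the right side `270, 11622, 511110`. For `h ≥ 4` already `81^h > 6·44^h + 6` (induction), and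
`10 q³ ≥ 2 q² + 2 q`. -/
def StHSM : Prop := ∀ (F : Type u) [Field F] [Finite F] (V : Type v) [AddCommGroup V] [Module F V]
  [FiniteDimensional F V] (Q : QuadraticForm F V) (T H : Finset (ℙ F V)) (m : ℙ F V → ℕ) (h j : ℕ),
  Cfg Q T H m h j → 2 * H.card ≤ Nat.card F + 1

/-- ZER (no heavy point; uses DGT, RKA).

PROOF. By DGT (2) two different points of `T` are not perpendicular, so `q⁴ + 1 ≤ T.card ≤ 44^h + 1` by RKA (1) (`Q ≠ 0`, see TBD), but
`q⁴ = 81^h > 44^h`. -/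
def StZER : Prop := ∀ (F : Type u) [Field F] [Finite F] (V : Type v) [AddCommGroup V] [Module F V]
  [FiniteDimensional F V] (Q : QuadraticForm F V) (T H : Finset (ℙ F V)) (m : ℙ F V → ℕ) (h j : ℕ),
  Cfg Q T H m h j → H.Nonempty

end Pool.Agent.Helper45.PQ
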