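import Pool.Agent.Helper45.PQ.StA

/-!
# Project PQ (MP_a1f43d_co): statements with complete proofs, second part (pairs of heavy points,
one heavy point).  Conventions: see `StA.lean`; here `f x y = QuadraticMap.polar Q x y` again.
-/

set_option autoImplicit false

open Module Classical
open scoped LinearAlgebra.Projectivization

namespace Pool.Agent.Helper45.PQ

open Pool.Agent.Helper53.PB (tt line HasParams Form Setup Polar Nb Kind)

universe u v

/-- CNT (singular points not perpendicular to a given one).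

PROOF. Choose `w ∈ W` with `f R w = 1` (scale). `W' = W ⊓ prp Q R` has dimension `k + 1` (`PB.Polar.finrank_inf_ker`) and contains `R`
(`f R R = 2 Q R = 0`). Count the vectors `x ∈ W` with `Q x = 0`, `f R x = 1`: `x = w + y`, `y ∈ W'`, and these are `q^(k+1)` vectors in all
(before imposing `Q x = 0`); for such an `x`, `Q (x + t R) = Q x + t f x R = Q x + t`, so each coset `x + F R` contains exactly one
singular vector: `q^k` singular vectors `x` with `f R x = 1` (for instance: the map `(x, t) ↦ x + t R` from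
{singular, `f R x = 1`} `× F` onto {`f R x = 1`} is a bijection). Each point `y` of the set in question has exactly one representative
`x = (f R y.rep)⁻¹ y.rep` with `f R x = 1`, so the numbers agree. -/
def StCNT : Prop := ∀ (F : Type u) [Field F] [Finite F] (V : Type v) [AddCommGroup V] [Module F V]
  [Finite V] [FiniteDimensional F V] (Q : QuadraticForm F V) (W : Submodule F V) (R : V) (k : ℕ),
  R ∈ W → Q R = 0 → (∃ w ∈ W, QuadraticMap.polar Q R w ≠ 0) → finrank F W = k + 2 →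
  ((sp Q W).filter (fun y => QuadraticMap.polar Q R y.rep ≠ 0)).card = Nat.card F ^ k

/-- VAR (variance; uses CNT).

PROOF. Let `Z = (sp Q (prp Q S.rep)).filter (f R y ≠ 0)` (so `Y ⊆ Z`) and for a point `y` let `N y = (X.filter (fun x => f y x = 0)).card`. The polar form
is non-degenerate (`qd.nd`), so for independent vectors `a_1, .., a_i` the subspace of the vectors perpendicular to all of them has
dimension `9 - i`, and a vector `R` perpendicular to this subspace lies in `span {a_1, .., a_i}`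
(`LinearMap.BilinForm.finrank_orthogonal`, `orthogonal_orthogonal` for `QuadraticMap.polarBilin Q`).
(a) `Z.card = q^6`: CNT with `W = prp Q S` (dimension 8; `R ∈ W`; `R` is not in `span {S}`). (b) for `x ∈ X`:
`#{y ∈ Z | f y x = 0} = q^5`: CNT with `W = prp Q S ⊓ prp Q x` (dimension 7: `S`, `x` are independent as `f S x ≠ 0 = f S S`; `R ∈ W`; `R` is not in
`span {S, x}`: if `R = α S + β x`, then `0 = f S R = β f S x`, so `β = 0`, `R = S`).
(c) for `x₁, x₂ ∈ X` with `x₂ ∉ line R x₁` : `#{y ∈ Z | f y x₁ = f y x₂ = 0} = q^4`. Indeed `S, x₁, x₂` are independent: `x₁ ≠ x₂`, and if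
`S = α x₁ + β x₂`, then `0 = Q S = α β f x₁ x₂`, but `f S x₁ = β f x₂ x₁ ≠ 0` and `f S x₂ = α f x₁ x₂ ≠ 0`, a contradiction. `R ∉ span {S, x₁, x₂}`: let
`R = α S + β x₁ + γ x₂`; `0 = f S R = β f S x₁ + γ f S x₂`; if `β = 0` then `γ = 0` and `R = S`, no; so `β, γ ≠ 0`. `0 = f R x₁ = α f S x₁ + γ f x₂ x₁` and
`0 = f R x₂ = α f S x₂ + β f x₁ x₂`; if `α = 0` then `R = β x₁ + γ x₂` and `x₂ ∈ line R x₁`, excluded; so `α ≠ 0`, `f x₁ x₂ ≠ 0`, and
`0 = Q R = α β f S x₁ + α γ f S x₂ + β γ f x₁ x₂ = β γ f x₁ x₂`, a contradiction. Now CNT with `W = prp Q S ⊓ prp Q x₁ ⊓ prp Q x₂`, dimension 6.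
(d) for `x₁ ≠ x₂` in `X` with `x₂ ∈ line R x₁` the number is `0`: `x₂ = a R + b x₁` with `a ≠ 0`; `f y x₁ = f y x₂ = 0` gives `f y R = 0`.
For `x₁ = x₂` it is `q^5` by (b). Let `B` be the number of pairs `(x₁, x₂)` in `X × X` with `x₂ ∈ line R x₁`; `B ≥ (1 + e) |X|`.
Then `∑_{y ∈ Z} N y = q^5 |X|`, `∑_{y ∈ Z} (N y)² = q^5 |X| + q^4 (|X|² - B)`, and
`∑_{y ∈ Z} (q N y - |X|)² = q^7 |X| + q^6 |X|² - q^6 B - 2 q^6 |X|² + q^6 |X|² = q^7 |X| - q^6 B ≤ q^6 |X| (q - 1 - e)`.
For `y ∈ Y`: `(q N y - |X|)² ≥ |X|² - 2 q N y |X| ≥ |X| (|X| - 2 g q)`. If `|X| ≤ 2 g q`, the left side of the claim is `≤ 0` and the right side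
`≥ 0` (`e + 1 ≤ q`). Otherwise `|Y| |X| (|X| - 2 g q) ≤ q^6 |X| (q - 1 - e)`; divide by `|X| > 0`. -/
def StVAR : Prop := ∀ (F : Type u) [Field F] [Finite F] (V : Type v) [AddCommGroup V] [Module F V]
  [Finite V] [FiniteDimensional F V] (Q : QuadraticForm F V) (R S : ℙ F V) (X Y : Finset (ℙ F V))
  (e g : ℕ), Qd Q 9 4 → Q R.rep = 0 → Q S.rep = 0 → QuadraticMap.polar Q R.rep S.rep = 0 → R ≠ S →
  e + 1 ≤ Nat.card F →
  (∀ x ∈ X, Q x.rep = 0 ∧ QuadraticMap.polar Q R.rep x.rep = 0 ∧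
    QuadraticMap.polar Q S.rep x.rep ≠ 0) →
  (∀ y ∈ Y, Q y.rep = 0 ∧ QuadraticMap.polar Q S.rep y.rep = 0 ∧
    QuadraticMap.polar Q R.rep y.rep ≠ 0) →
  (∀ x ∈ X, 1 + e ≤ (X.filter (fun x' => x'.rep ∈ line R x)).card) →
  (∀ y ∈ Y, (X.filter (fun x => QuadraticMap.polar Q y.rep x.rep = 0)).card ≤ g) →
  (Y.card : ℤ) * (X.card - 2 * g * Nat.card F) ≤
    (Nat.card F : ℤ) ^ 6 * ((Nat.card F : ℤ) - 1 - e)

/-- CSA (two perpendicular heavy points; uses VAR, DEG).

PROOF. `X = {x ∈ T | f R x = 0, f S x ≠ 0}`, `Y = {y ∈ T | f S y = 0, f R y ≠ 0}`, `e = m R`, `g = j - m R - m S`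
(`m R + m S ≤ j` by `c.ms`, as `R ≠ S`). (i) `|X| = nu(R) - #{x ∈ T | f R x = f S x = 0} ≥ (1 + m R)(q³ + 1) - (q³ - 1) ≥ m R q³`
(`c.lo`, `c.lp`), in the same way `|Y| ≥ m S q³`. (ii) Let `x ∈ X`, `l = line x R = line R x` (`sup_comm`). `c.ln` (`P = x`, `X = R`):
`tt T l = 1 + mass H m l ≥ 1 + m R`. All points `x'` of `T` in `l` are in `X`: `x'.rep = a x.rep + b R.rep` with `a ≠ 0` (`R ∉ T`), so
`f R x' = 0` and `f S x' = a f S x ≠ 0`. So the fourth hypothesis of VAR holds. (iii) Let `y ∈ Y`, `A = {x ∈ X | f y x = 0}`; `x ≠ y` for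
`x ∈ A` because `f R x = 0 ≠ f R y`. DEG: `A.card ≤ ∑ m Z` over the heavy points `Z` with `Z ∈ line y x` for an `x ∈ A`; `Z` is perpendicular to `y` and to
`x` (the line is totally singular), so `Z ≠ R` (`f R y ≠ 0`) and `Z ≠ S` (`f S x ≠ 0`): `A.card ≤ j - m R - m S = g`. (iv) `m R ≤ j ≤ q - 2`. VAR:
`|Y| (|X| - 2 g q) ≤ q^6 (q - 1 - m R)`. Since `m R + m S + g = j ≤ q - 2` and `m R, m S ≥ 1`: `g ≤ q - 4`, `2 g q < q³`, so
`m S q³ (m R q³ - 2 g q) ≤ q^6 (q - 1 - m R)`; divide by `q⁴`: `m S m R q² - 2 g m S ≤ q² (q - 1 - m R)`. As `4 g m S ≤ (g + m S)² ≤ (q - 3)²`, `2 g m S < q²`, so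
`q² (m R m S + m R + 1 - q) < q²`, i.e. `m R m S + m R + 1 - q < 1`, which is the claim. -/
def StCSA : Prop := ∀ (F : Type u) [Field F] [Finite F] (V : Type v) [AddCommGroup V] [Module F V]
  [Finite V] [FiniteDimensional F V] (Q : QuadraticForm F V) (T H : Finset (ℙ F V))
  (m : ℙ F V → ℕ) (h j : ℕ), Cfg Q T H m h j → ∀ R ∈ H, ∀ S ∈ H, R ≠ S →
  QuadraticMap.polar Q R.rep S.rep = 0 → m R * (1 + m S) + 1 ≤ Nat.card F

/-- XZ (an isolating singular vector; uses CNT).

PROOF. `L = prp Q R ⊓ prp Q S` has dimension 7 and `V = L ⊕ span {R, S}` (because `f R S ≠ 0`, `Q R = Q S = 0`), so the form is non-degenerate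
on `L`. `L` contains a nonzero singular vector `r₁`: take `G` totally singular of dimension 4 containing `R` (`qd.ext`), `G ⊓ prp Q S` has
dimension at least 3 and lies in `L`. Choose `w ∈ L` with `f r₁ w = 1`, `s₁ = w - Q(w) r₁ ∈ L` is singular, `f r₁ s₁ = 1`. Put
`M = L ⊓ prp Q r₁ ⊓ prp Q s₁` (dimension 5, `L = M ⊕ span {r₁, s₁}`). For `u ∈ M` let `x(u) = s₁ + u - Q(u) r₁`: `x(u) ∈ L`, `Q (x(u)) = 0`,
`f r₁ (x(u)) = 1`, and `u ↦ x(u)` is injective (also as a map to points). There are `q^5` vectors `u ∈ M`. We show that fewer than `q^5` of them are bad.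
(1) For `z ∈ Z` at most `2 q^4` vectors `u` have `f z (x(u)) = 0`, i.e. `α + f(z, u) - β Q(u) = 0` with `α = f z s₁`, `β = f z r₁`.
If `β ≠ 0`: choose `v ∈ M` with `Q v ≠ 0` (if `Q` were zero on `M`, `M` would be totally singular of dimension `5 > 4`, `qd.mx`). The cosets `u + F v` of
`M / F v` are `q^4` in number, and on each of them the equation is a quadratic equation in `t` with leading coefficient `-β Q(v) ≠ 0`
(`α + f(z,u) + t f(z,v) - β (Q u + t f(u,v) + t² Q v) = 0`), so it has at most 2 solutions. (Instead of cosets: choose a linear functional `g` on `M` with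
`g v = 1`, `M = ker g ⊕ F v`.) If `β = 0` and there is `v ∈ M` with `f z v ≠ 0`, each coset `u + F v` has exactly one solution. If `β = 0` and
`f z v = 0` for all `v ∈ M`: then `α ≠ 0` (no solution), because otherwise `z` is perpendicular to `L = M + span {r₁, s₁}`, so `z.rep = a R + b S`
(write `z.rep = a R + b S + l`, `l ∈ L` perpendicular to `L`, so `l = 0`), `0 = Q z = a b f R S`, so `z = R` or `z = S` as points, excluded.
(2) For `P ∈ A` at most one `u` is such that `P.rep = a R.rep + b x(u)` for some `a, b`: `b ≠ 0` as `P ≠ R`; if `P.rep = a R + b x(u) = a' R + b' x(u')`, then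
pairing with `S`: `a f R S = a' f R S` (`x(u), x(u') ∈ L`), `a = a'`, `b x(u) = b' x(u')`, pairing with `r₁`: `b = b'`, `x(u) = x(u')`, `u = u'`. The same for `B` and `S`.
So at most `A.card + B.card + 2 Z.card q^4 < q^5` vectors `u` are bad; take a good `u` and `x = x(u)` (nonzero as `f r₁ x = 1`). -/
def StXZ : Prop := ∀ (F : Type u) [Field F] [Finite F] (V : Type v) [AddCommGroup V] [Module F V]
  [Finite V] [FiniteDimensional F V] (Q : QuadraticForm F V) (R S : ℙ F V)
  (Z A B : Finset (ℙ F V)), Qd Q 9 4 → Q R.rep = 0 → Q S.rep = 0 →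
  QuadraticMap.polar Q R.rep S.rep ≠ 0 → (∀ z ∈ Z, Q z.rep = 0 ∧ z ≠ R ∧ z ≠ S) → R ∉ A → S ∉ B →
  A.card + B.card + 2 * Z.card * Nat.card F ^ 4 < Nat.card F ^ 5 →
  ∃ x : V, x ≠ 0 ∧ Q x = 0 ∧ QuadraticMap.polar Q R.rep x = 0 ∧ QuadraticMap.polar Q S.rep x = 0 ∧
    (∀ z ∈ Z, QuadraticMap.polar Q z.rep x ≠ 0) ∧
    (∀ P ∈ A, ∀ a b : F, P.rep ≠ a • R.rep + b • x) ∧
    ∀ P ∈ B, ∀ a b : F, P.rep ≠ a • S.rep + b • x

/-- KSP (the five-dimensional section).

PROOF. `L = prp Q r ⊓ prp Q s`, `V = L ⊕ span {r, s}`, so `f` is non-degenerate on `L`; choose `w ∈ L` with `f x w = 1` and put `x' = w - Q(w) x`: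
`x' ∈ L`, `Q x' = 0`, `f x x' = 1`. `K = L ⊓ prp Q x ⊓ prp Q x'`. Every `v ∈ V` is
`v = f(s,v) r + f(r,v) s + f(x',v) x + f(x,v) x' + k` with `k ∈ K`, and the decomposition is unique, so `finrank K = 9 - 4 = 5`. (i) clear. (ii) pair
`y + a r + b s + c x = 0` with `s`, `r`, `x'`. `nd` of `Q.comp K.subtype` (its polar form is the restriction of `f`): if `y ∈ K` is perpendicular to `K` it is
perpendicular to `V` by the decomposition, so `y = 0`. `ext`: let `U ≤ K` with `Q = 0` on it (a submodule of `↥K`; `U' = U.map K.subtype`).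
`U' ⊔ span {r} ⊔ span {x}` is totally singular (`sing_sup` twice); let `G` be totally singular of dimension 4 containing it (`qd.ext`).
`G' = G ⊓ prp Q s ⊓ prp Q x'` has dimension at least 2 (`PB.Polar.finrank_le_inf_ker` twice), and `G' ≤ K` because all elements of `G` are
perpendicular to `r, x ∈ G` (`polar_zero`); `U' ≤ G'`. `G' ⊓ span {r, x} = ⊥` (ii) and `G' ⊔ span {r, x} ≤ G`, so `finrank G' = 2`. Take
`G'.comap K.subtype`. `mx`: by `ext` such a `U` lies in a subspace of dimension 2. -/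
def StKSP : Prop := ∀ (F : Type u) [Field F] [Finite F] (V : Type v) [AddCommGroup V] [Module F V]
  [FiniteDimensional F V] (Q : QuadraticForm F V) (r s x : V), Qd Q 9 4 → Q r = 0 → Q s = 0 →
  QuadraticMap.polar Q r s = 1 → x ≠ 0 → Q x = 0 → QuadraticMap.polar Q r x = 0 →
  QuadraticMap.polar Q s x = 0 → ∃ K : Submodule F V,
    (∀ y ∈ K, QuadraticMap.polar Q r y = 0 ∧ QuadraticMap.polar Q s y = 0 ∧
      QuadraticMap.polar Q x y = 0) ∧
    (∀ y ∈ K, ∀ a b c : F, y + a • r + b • s + c • x = 0 → y = 0 ∧ a = 0 ∧ b = 0 ∧ c = 0) ∧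
    Qd (Q.comp K.subtype) 5 2

/-- OVD (the ovoid of the section seen from a heavy point).

PROOF. Put `r = R.rep`. For a singular point `y` of `K` (`y : ℙ F K`, write `y` also for the vector `(y.rep : V)`) let
`E_y = span {y, x, r}`. `O` = the singular points `y` of `K` such that `E_y` contains a point of `T`.
(a) Let `U` be a totally singular subspace of `K` of dimension 2, `U' = U.map K.subtype`, `G = U' ⊔ span {x} ⊔ span {r}`: it is totally singular
(`sing_sup`) of dimension 4 (independence hypothesis). Heavy points in `G` are perpendicular to `r` and to `x` (`polar_zero`), so only `R`: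
`mass H m G = m R`, `tt T G = 1 + m R` (`c.gn`). For every point `P ∈ T` in `G`: `P ≠ R`, the line `line P R ≤ G` has
`tt T (line P R) = 1 + mass ≥ 1 + m R` (`c.ln`, `mass ≥ m R` since `R` is on it), so ALL points of `T` in `G` lie on `line P R` and there are exactly `1 + m R` of
them. Write `P.rep = λ + β x + α r` with `λ ∈ U'`; `λ ≠ 0` by the hypothesis on `x`. The vectors of `line P R` are `a P.rep + b r`, with `U'`-component
`a λ`. If `y` is a point of `U` and `E_y` contains a point `P'` of `T`, then `P' ∈ G`, so `P' ∈ line P R`, its `U'`-component is a nonzero multiple of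
`λ` and also a multiple of `y`, so `y = [λ]`. Conversely `E_{[λ]}` contains `P`. So exactly one point of `U` is in `O`: `Ovo`.
(b) Let `y ∈ O`, `P ∈ T` in `E_y`, `P.rep = c₀ y + β x + α r`, `c₀ ≠ 0` (hypothesis on `x`). Put `γ y = β / c₀`. Choose `U ∋ y.rep` totally singular of
dimension 2 in `K` (`Qd.ext` for `span {y.rep}`). By (a) the points of `T` in `G` are the points of `T` on `line P R`, `1 + m R` in number, none is `R`
(`c.dis`). The points of `line P R` other than `R` are exactly the points `[y + γ x + a r]`, `a ∈ F` (all different for different `a`). Put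
`C y = {a | ∃ P' ∈ T, ∃ c ≠ 0, P'.rep = c • (y + γ x + a r)}`. The map `a ↦` this point `P'` is a bijection of `C y` onto the points of `T` on `line P R`, so
`(C y).card = 1 + m R`. (Outside `O` put `γ y = 0`, `C y = ∅`.) -/
def StOVD : Prop := ∀ (F : Type u) [Field F] [Finite F] (V : Type v) [AddCommGroup V] [Module F V]
  [Finite V] [FiniteDimensional F V] (Q : QuadraticForm F V) (T H : Finset (ℙ F V))
  (m : ℙ F V → ℕ) (h j : ℕ), Cfg Q T H m h j → ∀ R ∈ H, ∀ x : V, x ≠ 0 → Q x = 0 →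
  QuadraticMap.polar Q R.rep x = 0 →
  (∀ Z ∈ H, Z ≠ R → QuadraticMap.polar Q R.rep Z.rep = 0 → QuadraticMap.polar Q x Z.rep ≠ 0) →
  (∀ P ∈ T, ∀ a b : F, P.rep ≠ a • R.rep + b • x) → ∀ K : Submodule F V,
  (∀ y ∈ K, QuadraticMap.polar Q R.rep y = 0 ∧ QuadraticMap.polar Q x y = 0) →
  (∀ y ∈ K, ∀ a b : F, y + a • R.rep + b • x = 0 → y = 0 ∧ a = 0 ∧ b = 0) →
  Qd (Q.comp K.subtype) 5 2 →
  ∃ (O : Finset (ℙ F K)) (γ : ℙ F K → F) (C : ℙ F K → Finset F), Ovo (Q.comp K.subtype) O ∧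
    ∀ y ∈ O, (C y).card = 1 + m R ∧ ∀ a ∈ C y, ∃ P ∈ T, ∃ c : F, c ≠ 0 ∧
      P.rep = c • ((y.rep : V) + γ y • x + a • R.rep)

/-- PIK (the inequality on the section, see `StK.lean` for its parts). -/
def StPIK : Prop := ∀ (F : Type u) [Field F] [Fintype F], (2 : F) ≠ 0 → ∀ (V : Type v)
  [AddCommGroup V] [Module F V] [Finite V] [FiniteDimensional F V] (Q : QuadraticForm F V)
  (O O' : Finset (ℙ F V)) (X E : ℙ F V → Finset F) (e e' : ℕ), Qd Q 5 2 → Ovo Q O → Ovo Q O' →
  1 ≤ e → 1 ≤ e' → e' + 2 ≤ Nat.card F → (∀ y ∈ O, 0 ∉ X y ∧ e ≤ (X y).card) →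
  (∀ z ∈ O', 0 ∉ E z ∧ (E z).card = e') →
  (∀ y ∈ O, ∀ z ∈ O', ∀ a ∈ X y, ∀ b ∈ E z, a * b + QuadraticMap.polar Q y.rep z.rep ≠ 0) →
  e' * (1 + e) + 1 ≤ Nat.card F

/-- CSB (two heavy points which are not perpendicular; uses XZ, KSP, OVD, PIK).

PROOF. `Z = (H.erase R).erase S`, `A = T.filter (f R P = 0)`, `B = T.filter (f S P = 0)`: `A.card = nu(R)`, `B.card = nu(S)`, so with `c.up`
`A.card + B.card ≤ (2 + m R + m S) q³ + 2 + 2 j ≤ q⁴ + 2 q - 2` (`m R + m S ≤ j ≤ q - 2` since `R ≠ S`), `2 Z.card = 2 H.card - 4 ≤ q - 3`, and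
`q⁴ + 2 q - 2 + (q - 3) q⁴ < q^5`. XZ gives `x`. Put `λ = f R.rep S.rep ≠ 0`, `r = R.rep`, `s = λ⁻¹ • S.rep`, so `f r s = 1`. KSP gives `K`.
OVD for `R`, `x`, `K`: if `Z' ∈ H`, `Z' ≠ R`, `f R Z' = 0` then `Z' ≠ S`, so `Z' ∈ Z` and `f x Z' ≠ 0`; if `P ∈ T` and `P.rep = a R.rep + b x`, then `f R P = 0`, so
`P ∈ A`, excluded by XZ; the independence follows from KSP (ii). It gives `O, γ, C`. The same for `S` (use `f S R ≠ 0`, and
`y + a • S.rep + b • x = y + 0 • r + (a λ) • s + b • x`): `O', γ', C'`. Let `X y = (C y).erase 0` (at least `m R` elements), and `E z` a subset with exactly `m S`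
elements of the image of `(C' z).erase 0` under multiplication by `λ` (`Finset.exists_subset_card_eq`). Let `a ∈ X y`, `b = b' λ ∈ E z`,
`P.rep = c (y + γ x + a r)`, `P'.rep = c' (z + γ' x + b' S.rep)` in `T`. Then `f P P' = c c' (f y z + a b' λ)` (`x` is perpendicular to everything here, `r`, `S.rep`
are perpendicular to `y`, `z`), so we must show `f P P' ≠ 0`. Suppose `f P P' = 0`. `P ≠ P'`: `f S P = c a λ ≠ 0`, but `f S P' = 0`. So the totally singular
`line P P'` has `tt T ≥ 2`, `mass ≥ 1` (`c.ln`): there is `Z' ∈ H` on it. `f x Z' = 0` (`f x P = f x P' = 0`), so `Z' = R` or `Z' = S`. The line is totally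
singular, but `f R P' = c' b' λ ≠ 0` and `f S P ≠ 0`, a contradiction. PIK with `Q.comp K.subtype`, `e = m R`, `e' = m S ≤ j ≤ q - 2`
(`(2 : F) ≠ 0` as `q = 3 ^ h`; `Fintype F` by `Fintype.ofFinite`). -/
def StCSB : Prop := ∀ (F : Type u) [Field F] [Finite F] (V : Type v) [AddCommGroup V] [Module F V]
  [Finite V] [FiniteDimensional F V] (Q : QuadraticForm F V) (T H : Finset (ℙ F V))
  (m : ℙ F V → ℕ) (h j : ℕ), Cfg Q T H m h j → 2 * H.card ≤ Nat.card F + 1 → ∀ R ∈ H, ∀ S ∈ H,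
  QuadraticMap.polar Q R.rep S.rep ≠ 0 → m S * (1 + m R) + 1 ≤ Nat.card F

/-- ONA (one heavy point, independent set; uses DGT, RKA).

PROOF. `m R = j` (`c.ms`). `Z = T.filter (f R P ≠ 0)`: `|Z| = |T| - nu(R) ≥ q⁴ + 1 + j - (1 + j) q³ - 1 - j = q⁴ - (1 + j) q³` (`c.up`).
`T₀ = T.filter (f R P = 0)`, `|T₀| = nu(R) ≥ (1 + j)(q³ + 1)` (`c.lo`). For `x ∈ T₀` the line `line x R` has exactly `1 + j` points of `T` (`c.ln`,
`mass = m R = j` because `H = {R}` and `R` is on it), all in `T₀`. So `T₀` is the disjoint union of classes (`x ~ x'` iff `line x R = line x' R`) with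
`1 + j` elements, and there are at least `q³ + 1` classes; let `B ⊆ T₀` contain exactly one element of each class. Two different elements `x, x'` of `B` are not
perpendicular: otherwise `line x x'` has at least 2 points of `T`, mass at least 1 (`c.ln`), so contains `R`, and `line x R = line x' R`. An
element of `Z` is perpendicular to no other point of `T` (DGT (2): the sum is empty). So `Z ∪ B` is a set of pairwise non-perpendicular points,
`|Z| + |B| ≤ 44^h + 1` (RKA (1), `Q ≠ 0`): `q⁴ - (1 + j) q³ + q³ + 1 ≤ 44^h + 1`. -/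
def StONA : Prop := ∀ (F : Type u) [Field F] [Finite F] (V : Type v) [AddCommGroup V] [Module F V]
  [Finite V] [FiniteDimensional F V] (Q : QuadraticForm F V) (T H : Finset (ℙ F V))
  (m : ℙ F V → ℕ) (h j : ℕ), Cfg Q T H m h j → ∀ R, H = {R} →
  (Nat.card F - j) * Nat.card F ^ 3 ≤ 44 ^ h

/-- ONB (one heavy point, position codes; uses DGT, RKA).

PROOF. `Z`, `T₀`, `B` (`|B| ≥ q³ + 1`) as in ONA (same text; `|Z| ≥ q⁴ - (1 + j) q³ = (q - 1 - j) q³`). Choose `w ∈ V` with `f R w = 1` and then singular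
(`w - Q(w) R.rep`). `L = prp Q R ⊓ prp Q w`, `finrank L = 7`, `V = L ⊕ span {R, w}`. For `y ∈ B` let `y' = y.rep - (f w y.rep) • R.rep ∈ L`. Then
`Q y' = 0`, `f y' z' = f y z ≠ 0` for `y ≠ z` in `B`. CLAIM: `span {y' | y ∈ B} = L`. Otherwise it is contained in a subspace `W ≤ L` of dimension 6, and the points
`[y']`, `y ∈ B` (different points, pairwise not perpendicular) give `q³ + 1 ≤ 21^h + 1` (RKA (2)), but `q³ = 27^h > 21^h`. So there are
`y_1, .., y_7 ∈ B` such that `y'_1, .., y'_7` is a basis of `L` (a spanning set contains a basis, `exists_linearIndependent`). For `z ∈ Z` let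
`z' = (f R z.rep)⁻¹ • z.rep`, so `f R z' = 1`, and `κ(z) = (f z' y'_i)_i ∈ F^7`. (a) The point `[y'_i - κ_i(z) R.rep]` lies on `line R y_i`, is perpendicular to `z'`
(`f z' R = 1`), and it is not in `T`: otherwise `z ∈ Z` would be perpendicular to another point of `T` (it is different from `z` since it is perpendicular
to `R`), against DGT (2). The points of `line R y_i` different from `R` are the points `[y'_i - c R.rep]`, `c ∈ F`, without repetition, and exactly `1 + j` of them are in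
`T` (`c.ln`, `H = {R}`, `R ∉ T`). So `κ_i(z)` takes at most `q - 1 - j` values. (b) `κ` is injective on `Z`: if `κ(z) = κ(z₁)` then `z' - z₁'` is perpendicular
to `R` and to `L`, hence (decomposition `V = L ⊕ span {R, w}`) `z' - z₁' = c R.rep`; `0 = Q z₁' = Q (z' - c R.rep) = -c f z' R = -c`, so `z' = z₁'`, `z = z₁`.
Hence `(q - 1 - j) q³ ≤ |Z| ≤ (q - 1 - j)^7`. -/
def StONB : Prop := ∀ (F : Type u) [Field F] [Finite F] (V : Type v) [AddCommGroup V] [Module F V]
  [Finite V] [FiniteDimensional F V] (Q : QuadraticForm F V) (T H : Finset (ℙ F V))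
  (m : ℙ F V → ℕ) (h j : ℕ), Cfg Q T H m h j → ∀ R, H = {R} →
  (Nat.card F - 1 - j) * Nat.card F ^ 3 ≤ (Nat.card F - 1 - j) ^ 7

end Pool.Agent.Helper45.PQ
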