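import Pool.Agent.Helper45.PQ.StB

/-!
# Project PQ (MP_a1f43d_co): statements with complete proofs, third part (the five-dimensional
section `Q(4,q)` and its ovoids, `q` odd).  Conventions as in `StA.lean`: `q = Nat.card F`,
`f x y = QuadraticMap.polar Q x y`, totally singular means that `Q` vanishes (`polar_zero`).
-/

set_option autoImplicit false

open Module Classical
open scoped LinearAlgebra.Projectivization

namespace Pool.Agent.Helper45.PQ

open Pool.Agent.Helper53.PB (tt line HasParams Form Setup Polar Nb Kind)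

universe u v

/-- LTP (lines through a point; uses CNT).

PROOF. `W₂ = W ⊓ prp Q z ⊓ prp Q z₂`, `n = (sp Q W₂).card`. (1) The map `z' ↦ line z z'` from `sp Q W₂` to `lins Q W z.rep`: `z' ≠ z` because
`f z₂ z' = 0 ≠ f z₂ z`, so `line z z'` has dimension 2, it is totally singular, contained in `W`. Injective: `line z z'` is not contained in
`prp Q z₂`, so `line z z' ⊓ prp Q z₂` has dimension 1 and is spanned by `z'.rep` (`PB.eq_of_rep_mem_span`). Surjective: for `l ∈ lins` the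
subspace `l ⊓ prp Q z₂` has dimension 1 (`PB.Polar.finrank_inf_ker`), let `z' = [x]` for a generator `x`; `x` is singular, perpendicular to `z`
(`polar_zero`) and `z₂`; `l = line z z'` by dimensions. (2) A point `y ∈ sp Q W` with `f z y = 0` is either `z` or lies on `line z y ∈ lins`; each of
the `n` lines has `q` points different from `z` (`PB.card_pts`, `PB.geo_two`) and two different lines share only `z` (`PB.line_eq`). (3) By CNT
(`R = z.rep`, `w = z₂.rep`) `q^k` points of `sp Q W` are not perpendicular to `z`; add (2). -/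
def StLTP : Prop := ∀ (F : Type u) [Field F] [Finite F] (V : Type v) [AddCommGroup V] [Module F V]
  [Finite V] [FiniteDimensional F V] (Q : QuadraticForm F V) (W : Submodule F V) (z z₂ : ℙ F V)
  (k : ℕ), z.rep ∈ W → z₂.rep ∈ W → Q z.rep = 0 → Q z₂.rep = 0 →
  QuadraticMap.polar Q z.rep z₂.rep ≠ 0 → finrank F W = k + 2 →
  (lins Q W z.rep).ncard = (sp Q (W ⊓ prp Q z.rep ⊓ prp Q z₂.rep)).card ∧
  ((sp Q W).filter (fun y => QuadraticMap.polar Q z.rep y.rep = 0)).card =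
    1 + Nat.card F * (sp Q (W ⊓ prp Q z.rep ⊓ prp Q z₂.rep)).card ∧
  (sp Q W).card = Nat.card F ^ k + 1 +
    Nat.card F * (sp Q (W ⊓ prp Q z.rep ⊓ prp Q z₂.rep)).card

/-- OWK (ovoid points in a subspace).

PROOF. Double count. Let `Λ` be the finite set of the totally singular `l ≤ W` with `finrank l = 2`. Flags `(z, l)`, `z ∈ sp Q W`, `z ∈ l ∈ Λ`:
`(sp Q W).card * k = Λ.card * (q + 1)` (`PB.card_pts`, `PB.geo_two`; all points of `l` are in `sp Q W`). Flags `(y, l)` with `y ∈ O`, `y ∈ l ∈ Λ`: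
`(O.filter (rep ∈ W)).card * k = Λ.card` (each `l` contains exactly one point of `O`, `hO.2`). So
`(O ∩ W).card * k * (q + 1) = (sp Q W).card * k`; cancel `k`. (`Finite (Submodule F V)` holds as `V` is finite; use `Fintype.ofFinite`, or
`Set.Finite.toFinset`.) -/
def StOWK : Prop := ∀ (F : Type u) [Field F] [Finite F] (V : Type v) [AddCommGroup V] [Module F V]
  [Finite V] [FiniteDimensional F V] (Q : QuadraticForm F V) (O : Finset (ℙ F V)), Ovo Q O →
  ∀ (W : Submodule F V) (k : ℕ), 1 ≤ k → (∀ z ∈ sp Q W, (lins Q W z.rep).ncard = k) →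
  (Nat.card F + 1) * (O.filter (fun y => y.rep ∈ W)).card = (sp Q W).card

/-- GQA (counts in `Q(4,q)`; uses CNT, LTP, OWK).

PROOF. `hq : Qd Q 5 2`. For singular points `z ≠ z₂` put `W₃ = prp Q z ⊓ prp Q z₂`. (1) Let `f z z₂ ≠ 0`; `finrank W₃ = 3`,
`V = W₃ ⊕ span {z, z₂}`, so `f` is non-degenerate on `W₃`. Let `U ∋ z` be totally singular of dimension 2 (`hq.ext`); `U ⊓ prp Q z₂` has dimension 1, take
`0 ≠ v` in it; `v ∈ W₃` is singular. CNT with `W = W₃`, `R = v`, `k = 1`: `q` points of `sp Q W₃` are not perpendicular to `v`. If `y ∈ sp Q W₃` is perpendicular to `v` then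
`y = [v]`, for otherwise `span {z, v, y}` is totally singular of dimension 3 (`z` is not in `span {v, y} ≤ prp Q z₂`), against `hq.mx`. Total `q + 1`.
(3) CNT with `W = ⊤`, `k = 3` (`f z · ≠ 0` by `hq.nd`). For every singular point `z` there is a singular `z₂` with `f z z₂ ≠ 0` (by (3), `q³ > 0`).
(2) LTP (3) with `W = ⊤`, `k = 3` and (1): `q³ + 1 + q (q + 1) = (q + 1)(q² + 1)`; there is a singular point (`hq.ext` for `U = ⊥` gives a
two-dimensional `G`). LTP (1) and (1) show `(lins Q ⊤ z.rep).ncard = q + 1` for every singular point `z`.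
(4) OWK with `W = ⊤`, `k = q + 1`: `(q + 1) O.card = (q + 1)(q² + 1)`. (5) Let `z ∉ O` be singular. Each of the `q + 1` members `l` of
`lins Q ⊤ z.rep` contains exactly one point of `O` (perpendicular to `z`, different from `z`), two different ones meet only in `z`, and each `y ∈ O` with
`f z y = 0` lies on `line z y ∈ lins Q ⊤ z.rep`. So there are exactly `q + 1`. (6) If `y ≠ z` in `O` were perpendicular, the totally singular `line y z` would contain two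
points of `O`. -/
def StGQA : Prop := ∀ (F : Type u) [Field F] [Finite F] (V : Type v) [AddCommGroup V] [Module F V]
  [Finite V] [FiniteDimensional F V] (Q : QuadraticForm F V), Qd Q 5 2 →
  (∀ z z₂ : ℙ F V, Q z.rep = 0 → Q z₂.rep = 0 → QuadraticMap.polar Q z.rep z₂.rep ≠ 0 →
    (sp Q (prp Q z.rep ⊓ prp Q z₂.rep)).card = Nat.card F + 1) ∧
  (sp Q (⊤ : Submodule F V)).card = (Nat.card F + 1) * (Nat.card F ^ 2 + 1) ∧
  (∀ z : ℙ F V, Q z.rep = 0 →
    ((sp Q (⊤ : Submodule F V)).filter (fun y => QuadraticMap.polar Q z.rep y.rep ≠ 0)).card =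
      Nat.card F ^ 3) ∧
  ∀ O : Finset (ℙ F V), Ovo Q O → O.card = Nat.card F ^ 2 + 1 ∧
    (∀ z : ℙ F V, Q z.rep = 0 → z ∉ O →
      (O.filter (fun y => QuadraticMap.polar Q z.rep y.rep = 0)).card = Nat.card F + 1) ∧
    ∀ y ∈ O, ∀ z ∈ O, y ≠ z → QuadraticMap.polar Q y.rep z.rep ≠ 0

/-- NWD (hyperplanes of non-singular vectors, dichotomy; uses CNT, LTP, OWK).

PROOF. `W = prp Q w`, `finrank W = 4`, and `w ∉ W` (`f w w = 2 Q w ≠ 0`), `V = W ⊕ F w`, so `f` is non-degenerate on `W`. If `sp Q W = ∅` the second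
alternative holds. Let `v ∈ sp Q W`. CNT (`k = 2`): `q² > 0` points of `sp Q W` are not perpendicular to `v`; let `v₂` be one of them, `n(v) = (sp Q (W ⊓ prp Q v ⊓ prp Q v₂)).card`.
LTP: `(sp Q W).card = q² + 1 + q n(v)` and `(lins Q W v.rep).ncard = n(v)`; so `n(v) = n` does not depend on `v`. If `n = 0`: second alternative.
Let `n ≠ 0`; we show `n = 2`. `W₂ = W ⊓ prp Q v ⊓ prp Q v₂` has dimension 2, `f` is non-degenerate on it. Let `z₁ ∈ sp Q W₂`. CNT with `W = W₂`, `R = z₁.rep`, `k = 0`: exactly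
one point of `sp Q W₂` is not perpendicular to `z₁`. A point `y ≠ z₁` of `sp Q W₂` perpendicular to `z₁`: then `span {v, z₁, y}` is totally singular of dimension 3 (`v` is not
perpendicular to `v₂`), against `hq.mx`. So `n = 2`, `(sp Q W).card = (q + 1)²`, and OWK with `k = 2`: `(q + 1) (O ∩ W).card = (q + 1)²`. -/
def StNWD : Prop := ∀ (F : Type u) [Field F] [Finite F], (2 : F) ≠ 0 → ∀ (V : Type v)
  [AddCommGroup V] [Module F V] [Finite V] [FiniteDimensional F V] (Q : QuadraticForm F V),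
  Qd Q 5 2 → ∀ w : V, Q w ≠ 0 →
  ((sp Q (prp Q w)).card = (Nat.card F + 1) ^ 2 ∧ ∀ O : Finset (ℙ F V), Ovo Q O →
    (O.filter (fun y => QuadraticMap.polar Q w y.rep = 0)).card = Nat.card F + 1) ∨
  (sp Q (prp Q w)).card ≤ Nat.card F ^ 2 + 1

/-- NWR (reflections).

PROOF. Let first `Q w' = Q w`. `Q (w - w') + Q (w + w') = 2 Q w + 2 Q w' = 4 Q w ≠ 0`, so `Q a ≠ 0` for `a = w - w'` or `a = w + w'`. The reflection
`ρ x = x - (f a x / Q a) • a` is linear, `Q (ρ x) = Q x` (so it preserves `f`), `ρ (ρ x) = x`. For `a = w - w'`: `f a w = 2 Q w - f w' w = Q a`, so `ρ w = w'`; for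
`a = w + w'`: `f a w = Q a`, `ρ w = -w'`. So `ρ` maps the singular points perpendicular to `w` bijectively to those perpendicular to `w'`; to count points
use vectors: `card_vec` for `p x ↔ Q x = 0 ∧ f w x = 0` and the same for `w'`, the sets of vectors are in bijection by `ρ` (`Set.ncard_congr`), and
`q - 1 > 0`. General case `Q w' = d * d * Q w`, `d ≠ 0`: `prp Q (d • w) = prp Q w`. -/
def StNWR : Prop := ∀ (F : Type u) [Field F] [Finite F], (2 : F) ≠ 0 → ∀ (V : Type v)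
  [AddCommGroup V] [Module F V] [Finite V] [FiniteDimensional F V] (Q : QuadraticForm F V)
  (w w' : V) (d : F), Q w ≠ 0 → d ≠ 0 → Q w' = d * d * Q w →
  (sp Q (prp Q w)).card = (sp Q (prp Q w')).card

/-- ETA (the quadratic character).

PROOF. `eta a = quadraticChar F a` (`quadraticChar_apply`, `quadraticCharFun`, the definition is the same; with
`Fintype F` and classical decidability). (1) multiplicativity. (2) definition. (3) `quadraticChar_sum_zero` (needs `ringChar F ≠ 2`), and the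
value at 0 is 0. (4) from (3): the numbers of the `a ≠ 0` with value `1` and `-1` are equal and add up to `q - 1`. (5) `eta a = eta b`, `a, b ≠ 0`:
`eta (b * a) = 1`, so `b * a = d' * d'`, `b = (d' / a) * (d' / a) * a`. -/
def StETA : Prop := ∀ (F : Type u) [Field F] [Fintype F], (2 : F) ≠ 0 →
  (∀ a b : F, eta (a * b) = eta a * eta b) ∧ (∀ a : F, a ≠ 0 → eta a = 1 ∨ eta a = -1) ∧
  ∑ a : F, eta a = 0 ∧
  (∀ s : ℤ, s = 1 ∨ s = -1 → 2 * (Finset.univ.filter (fun a : F => eta a = s)).card =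
    Nat.card F - 1) ∧
  ∀ a b : F, a ≠ 0 → b ≠ 0 → eta a = eta b → ∃ d : F, d ≠ 0 ∧ b = d * d * a

/-- KAP (the number of singular points in the hyperplanes; uses GQA, NWD, NWR, ETA).

PROOF. `N w = (sp Q (prp Q w)).card`. Let `y₁, y₂` be singular points with `φ = f y₁ y₂ ≠ 0` (GQA (2), (3)); for `c ≠ 0` put `w_c = y₁.rep - c • y₂.rep`,
`Q w_c = -c φ ≠ 0`. By GQA the number of singular points perpendicular neither to `y₁` nor to `y₂` is
`(q + 1)(q² + 1) - 2 (q² + q + 1) + (q + 1) = q³ - q²` (perpendicular to `y₁`: `(q + 1)(q² + 1) - q³`; to both: `q + 1`). Each such point `z` is perpendicular to exactly one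
`w_c` (`c = f y₁ z / f y₂ z`), and the points `z ∈ sp Q (prp Q w_c)` perpendicular to `y₁` are those perpendicular to `y₁` and `y₂` (`q + 1`). So
`∑_{c ≠ 0} (N w_c - (q + 1)) = q² (q - 1)`. By NWR and ETA (5), `N w` depends only on `eta (Q w)` (`w` with `Q w ≠ 0`): `N w = A` if `eta = 1`, `N w = B` if
`eta = -1` (both values occur among the `w_c`, each for `(q - 1) / 2` values of `c`: ETA (4) for `c ↦ -c φ`). So
`(q - 1) / 2 * (A + B - 2 (q + 1)) = q² (q - 1)`, `A + B = 2 (q² + q + 1)`. By NWD each of `A`, `B` is `(q + 1)²` or at most `q² + 1`. Both equal to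
`(q + 1)²`: the sum `2 q² + 4 q + 2` is too large; both at most `q² + 1`: too small. So one is `(q + 1)²` and the other `q² + 1`. `κ = 1` if
`A = (q + 1)²`, `κ = -1` otherwise. -/
def StKAP : Prop := ∀ (F : Type u) [Field F] [Fintype F], (2 : F) ≠ 0 → ∀ (V : Type v)
  [AddCommGroup V] [Module F V] [Finite V] [FiniteDimensional F V] (Q : QuadraticForm F V),
  Qd Q 5 2 → ∃ κ : ℤ, (κ = 1 ∨ κ = -1) ∧ ∀ w : V, Q w ≠ 0 →
    ((sp Q (prp Q w)).card : ℤ) =
      (Nat.card F : ℤ) ^ 2 + 1 + Nat.card F * (1 + κ * eta (Q w))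

/-- SSQ (the square of the character matrix of an ovoid; uses GQA, NWD, ETA, KAP).

PROOF. If `y₁ = y₂`: the sum is `∑_{y ∈ O} (eta (f y₁ y))²`; the term `y = y₁` is `0` (`f y₁ y₁ = 0`), the other `q²` terms are `1` (GQA (4), (6)).
Let `y₁ ≠ y₂`, `φ = f y₁ y₂ ≠ 0`. The terms `y = y₁, y₂` vanish. For the other `y` put `c(y) = f y₁ y / f y₂ y ≠ 0`; then
`eta (f y₁ y) eta (f y y₂) = eta (c(y) (f y₂ y)²) = eta (c(y))`, and `c(y) = c` iff `f w_c y = 0`, `w_c = y₁.rep - c • y₂.rep`; `y₁`, `y₂` are not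
perpendicular to `w_c`. So with `n_c = (O.filter (f w_c y = 0)).card` the sum is `∑_{c ≠ 0} eta c n_c`, and `∑_{c ≠ 0} n_c = q² + 1 - 2 = q² - 1`.
`Q w_c = -c φ`. Let `κ` be as in KAP. If `κ eta(-c φ) = 1`, then `(sp Q (prp Q w_c)).card = (q + 1)² > q² + 1`, so `n_c = q + 1` by NWD; there are `(q - 1) / 2`
such `c` (ETA (4)). So `∑` of `n_c` over these `c` is `(q² - 1) / 2`, and over the others also `(q² - 1) / 2`. As `eta c = eta(-φ) eta(-c φ)`
`= κ eta(-φ) · κ eta(-c φ)` (ETA (1), (2)), the sum is `κ eta(-φ) ((q² - 1)/2 - (q² - 1)/2) = 0`. -/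
def StSSQ : Prop := ∀ (F : Type u) [Field F] [Fintype F], (2 : F) ≠ 0 → ∀ (V : Type v)
  [AddCommGroup V] [Module F V] [Finite V] [FiniteDimensional F V] (Q : QuadraticForm F V),
  Qd Q 5 2 → ∀ O : Finset (ℙ F V), Ovo Q O → ∀ y₁ ∈ O, ∀ y₂ ∈ O,
  ∑ y ∈ O, eta (QuadraticMap.polar Q y₁.rep y.rep) * eta (QuadraticMap.polar Q y.rep y₂.rep) =
    if y₁ = y₂ then (Nat.card F : ℤ) ^ 2 else 0

/-- QFB (a quadratic form bound).

PROOF. For `s = 1` and `s = -1`: `0 ≤ ∑_z (∑_x φ x S x z - s c φ z)² = ∑_{x,y} φ x φ y ∑_z S x z S z y - 2 s c ∑_{x,z} φ x S x z φ z + c² ∑ φ²`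
`= 2 c² ∑ φ² - 2 s c ∑∑` (symmetry of `S`), divide by `2 c > 0`. -/
def StQFB : Prop := ∀ (α : Type v) (O : Finset α) (S : α → α → ℤ) (c : ℕ) (φ : α → ℤ), 1 ≤ c →
  (∀ x ∈ O, ∀ y ∈ O, S x y = S y x) →
  (∀ x ∈ O, ∀ y ∈ O, ∑ z ∈ O, S x z * S z y = if x = y then (c : ℤ) ^ 2 else 0) →
  |∑ x ∈ O, ∑ y ∈ O, φ x * S x y * φ y| ≤ c * ∑ x ∈ O, φ x ^ 2

/-- MMT (moments; uses GQA, KAP, SSQ, QFB, ETA).

PROOF. Let `N = ∑_{y ∈ O} (X y).card`, sums over `z ∈ sp Q ⊤` and `b ≠ 0`. (a) For `y ∈ O`, `a ∈ X y` (`a ≠ 0`): the pairs `(z, b)` with `b ≠ 0`,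
`a b + f y z = 0`: `b = -f y z / a`, nonzero iff `f y z ≠ 0`: `q³` of them (GQA (3)). Sum over `(y, a)`.
(b) `∑ cnt² = ∑_{(y₁,a₁),(y₂,a₂)} #{(z, b) : a₁ b + f y₁ z = 0 = a₂ b + f y₂ z}`. Equal pairs: `q³`. `y₁ = y₂`, `a₁ ≠ a₂`: `0` (`b = 0`). `y₁ ≠ y₂`: `b` is
determined, the condition is `f y₁ z ≠ 0` and `f w z = 0`, `w = a₂ • y₁.rep - a₁ • y₂.rep`, `Q w = -a₁ a₂ f y₁ y₂ ≠ 0` (GQA (6)): the number is
`(sp Q (prp Q w)).card - #{z : f w z = 0, f y₁ z = 0}`, and the last set is `{z : f y₁ z = f y₂ z = 0}` (`a₁ ≠ 0`), `q + 1` points (GQA (1)). With KAP: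
`q² + q κ eta(Q w)`, `eta(Q w) = eta(-1) eta(a₁) eta(a₂) eta(f y₁ y₂)`. So with `φ y = ∑_{a ∈ X y} eta a`, `S y₁ y₂ = eta (f y₁ y₂)` (`S y y = 0`):
`∑ cnt² = q³ N + q² (N² - ∑_y |X y|²) + q κ eta(-1) ∑_{y₁,y₂} φ S φ ≤ q³ N + q² (N² - ∑ |X y|²) + q · q ∑_y (φ y)²` by QFB (`c = q`, SSQ) and
`|κ eta(-1)| = 1`, and `(φ y)² ≤ |X y|²`. -/
def StMMT : Prop := ∀ (F : Type u) [Field F] [Fintype F], (2 : F) ≠ 0 → ∀ (V : Type v)
  [AddCommGroup V] [Module F V] [Finite V] [FiniteDimensional F V] (Q : QuadraticForm F V),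
  Qd Q 5 2 → ∀ O : Finset (ℙ F V), Ovo Q O → ∀ X : ℙ F V → Finset F, (∀ y ∈ O, 0 ∉ X y) →
  (∑ z ∈ sp Q (⊤ : Submodule F V), ∑ b ∈ (Finset.univ : Finset F).erase 0, cnt Q O X z.rep b =
    Nat.card F ^ 3 * ∑ y ∈ O, (X y).card) ∧
  ∑ z ∈ sp Q (⊤ : Submodule F V), ∑ b ∈ (Finset.univ : Finset F).erase 0, cnt Q O X z.rep b ^ 2 ≤
    Nat.card F ^ 3 * ∑ y ∈ O, (X y).card + Nat.card F ^ 2 * (∑ y ∈ O, (X y).card) ^ 2

/-- FIK (arithmetic).

PROOF. Put `A = q² + 1`, `p = q - 1`, `L = p - e' ≥ 1`, `D = q² p - L A = e' A - p`. The hypothesis (its bracket is positive) with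
`N ≥ e A` gives `e A (A e' + 1 + D² / (A L)) ≤ q^5`, i.e. `e (A L (A e' + 1) + D²) ≤ q^5 L`. `A L (A e' + 1) + D² = e' A (p A - 1 - 2 p) + p (A + p)`
(expand) `= e' (q² + 1) q (q² - q - 1) + q (q - 1)(q + 1)`. Divide by `q`: `e (e' (q² + 1)(q² - q - 1) + q² - 1) ≤ q⁴ (q - 1 - e')`. Now
`(q² + 1)(q² - q - 1) = q⁴ - q³ - (q + 1)` and `q² - 1 ≥ (q + 1) e'`, so `e e' (q⁴ - q³) ≤ q⁴ (q - 1 - e')`, `e e' (q - 1) ≤ q (q - 1 - e')`. Hence
`e' (e + 1)(q - 1) + e' ≤ q (q - 1)`, so `e' (e + 1) (q - 1) < q (q - 1)`, `e' (e + 1) < q`. -/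
def StFIK : Prop := ∀ (q e e' : ℕ) (N : ℝ), 1 ≤ e → 1 ≤ e' → e' + 2 ≤ q →
  (e : ℝ) * ((q : ℝ) ^ 2 + 1) ≤ N →
  N * (((q : ℝ) ^ 2 + 1) * e' + 1 + ((q : ℝ) ^ 2 * (q - 1) - (q - 1 - e') * ((q : ℝ) ^ 2 + 1)) ^ 2 /
    (((q : ℝ) ^ 2 + 1) * (q - 1 - e'))) ≤ (q : ℝ) ^ 5 → e' * (1 + e) + 1 ≤ q

/-- PKM (proof of `StPIK`; uses GQA, MMT, FIK).

PROOF. `N = ∑_{y ∈ O} (X y).card ≥ e (q² + 1)` (GQA (4)), real numbers. There are `(q + 1)(q² + 1)(q - 1) = q⁴ - 1` pairs `(z, b)`, `z ∈ sp Q ⊤`, `b ≠ 0`; by MMT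
`∑ (q cnt - N)² = q² ∑ cnt² - 2 q N ∑ cnt + (q⁴ - 1) N² ≤ q^5 N + q⁴ N² - 2 q⁴ N² + (q⁴ - 1) N² = q^5 N - N²`. Lower bound of the part with `z ∈ O'`:
for `b ∈ E z`, `cnt = 0` (hypothesis), the term is `N²`; there are `e' (q² + 1)` such pairs. For the `L = q - 1 - e'` elements `b ≠ 0`, `b ∉ E z`, use
`(q cnt - N)² ≥ 2 θ (q cnt - N) - θ²` with `θ = N D / ((q² + 1) L)`, `D = q² (q - 1) - L (q² + 1) = e' (q² + 1) - (q - 1) ≥ 0`. For `z ∈ O'`:
`∑_{b ≠ 0, b ∉ E z} cnt z b = ∑_{b ≠ 0} cnt z b = ∑_{y ∈ O, f y z ≠ 0} |X y|`, and summed over `z ∈ O'` this is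
`∑_{y ∈ O} |X y| #{z ∈ O' : f y z ≠ 0} ≥ q (q - 1) N`: the number is `q²` if `y ∈ O'` (GQA (6)) and `q² + 1 - (q + 1)` if `y ∉ O'` (GQA (5)). So the part with `z ∈ O'` is at least
`(q² + 1) e' N² + 2 θ (q · q (q - 1) N - N L (q² + 1)) - θ² L (q² + 1) = (q² + 1) e' N² + 2 θ N D - θ N D = (q² + 1) e' N² + N² D² / ((q² + 1) L)`.
Compare: `(q² + 1) e' N² + N² D² / ((q² + 1) L) ≤ q^5 N - N²`; divide by `N > 0` and apply FIK. -/
def StPKM : Prop := StPIK.{u, v}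

end Pool.Agent.Helper45.PQ
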